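import Pool.Agent.Hhelper10.Schub.Dim

/-!
# Bruhat decomposition of `GL_n`
-/

namespace Pool.Agent.Hhelper10.Schub

open Matrix

variable {K : Type*} [Field K] {n : ℕ}

/-- Invertible upper triangular matrices. -/
def Up (M : Matrix (Fin n) (Fin n) K) : Prop :=
  (∀ i j, j < i → M i j = 0) ∧ ∀ i, M i i ≠ 0

theorem Up.mul {A B : Matrix (Fin n) (Fin n) K} (hA : Up A) (hB : Up B) : Up (A * B) := by
  refine ⟨?_, ?_⟩
  · intro i j hij
    rw [Matrix.mul_apply]
    apply Finset.sum_eq_zero
    intro k _
    rcases lt_or_ge k i with h | h
    · rw [hA.1 i k h, zero_mul]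
    · rw [hB.1 k j (lt_of_lt_of_le hij h), mul_zero]
  · intro i
    rw [Matrix.mul_apply, Finset.sum_eq_single i]
    · exact mul_ne_zero (hA.2 i) (hB.2 i)
    · intro k _ hk
      rcases lt_or_gt_of_ne hk with h | h
      · rw [hA.1 i k h, zero_mul]
      · rw [hB.1 k i h, mul_zero]
    · simp

theorem Up.det_ne_zero {A : Matrix (Fin n) (Fin n) K} (hA : Up A) : A.det ≠ 0 := by
  rw [Matrix.det_of_isUpperTriangular (fun i j h => hA.1 i j h)]
  exact Finset.prod_ne_zero_iff.2 fun i _ => hA.2 i

theorem Up.inv {A : Matrix (Fin n) (Fin n) K} (hA : Up A) : Up A⁻¹ := by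
  have hdet : IsUnit A.det := isUnit_iff_ne_zero.2 hA.det_ne_zero
  let _ : Invertible A := A.invertibleOfIsUnitDet hdet
  have h1 : ∀ i j, j < i → A⁻¹ i j = 0 := by
    have h : BlockTriangular A id := fun i j hij => hA.1 i j hij
    have h2 := blockTriangular_inv_of_blockTriangular h
    intro i j hij
    exact h2 hij
  refine ⟨h1, fun i hi => ?_⟩
  have h3 : (A * A⁻¹) i i = 1 := by rw [Matrix.mul_nonsing_inv _ hdet, Matrix.one_apply_eq]
  rw [Matrix.mul_apply, Finset.sum_eq_zero] at h3
  · exact zero_ne_one h3
  · intro k _
    rcases lt_trichotomy k i with h | h | h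
    · rw [hA.1 i k h, zero_mul]
    · rw [h, hi, mul_zero]
    · rw [h1 k i h, mul_zero]

theorem Up.one : Up (1 : Matrix (Fin n) (Fin n) K) := by
  refine ⟨fun i j hij => Matrix.one_apply_ne (ne_of_gt hij), fun i => ?_⟩
  rw [Matrix.one_apply_eq]
  exact one_ne_zero

/-- `M ∈ B w B`. -/
def InCell (w : Equiv.Perm (Fin n)) (M : Matrix (Fin n) (Fin n) K) : Prop :=
  ∃ a b : Matrix (Fin n) (Fin n) K, Up a ∧ Up b ∧ M = a * permMat K w * b

theorem exists_bruhat (M : Matrix (Fin n) (Fin n) K) (hM : M.det ≠ 0) :
    ∃ v : Equiv.Perm (Fin n), InCell v M := by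
  classical
  have key : ∀ k : ℕ, k ≤ n → ∃ (a b : Matrix (Fin n) (Fin n) K) (v : Fin n → Fin n),
      Up a ∧ Up b ∧ ∀ j : Fin n, j.val < k →
        (∀ i, (a * M * b) i j = if i = v j then 1 else 0) ∧
        (∀ l, (a * M * b) (v j) l = if l = j then 1 else 0) := by
    intro k
    induction k with
    | zero => intro _; exact ⟨1, 1, id, Up.one, Up.one, fun j hj => absurd hj (Nat.not_lt_zero _)⟩
    | succ k ih =>
      intro hk
      obtain ⟨a, b, v, ha, hb, hv⟩ := ih (by omega)
      set M' := a * M * b with hM'
      let j0 : Fin n := ⟨k, by omega⟩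
      have hdet : M'.det ≠ 0 := by
        rw [hM', Matrix.det_mul, Matrix.det_mul]
        exact mul_ne_zero (mul_ne_zero ha.det_ne_zero hM) hb.det_ne_zero
      have hcol : ∃ i, M' i j0 ≠ 0 := by
        by_contra hcon
        push Not at hcon
        exact hdet (Matrix.det_eq_zero_of_column_eq_zero j0 hcon)
      obtain ⟨r, hr, hrmax⟩ : ∃ r, M' r j0 ≠ 0 ∧ ∀ i, r < i → M' i j0 = 0 := by
        obtain ⟨i0, hi0⟩ := hcol
        obtain ⟨r, hr1, hr2⟩ := Finset.exists_max_image
          (Finset.univ.filter fun i => M' i j0 ≠ 0) id ⟨i0, by simp [hi0]⟩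
        simp only [Finset.mem_filter, Finset.mem_univ, true_and, id_eq] at hr1 hr2
        refine ⟨r, hr1, fun i hi => ?_⟩
        by_contra hcon
        exact absurd (hr2 i hcon) (not_le_of_gt hi)
      set c := M' r j0 with hc
      have hrv : ∀ j : Fin n, j.val < k → r ≠ v j := by
        intro j hj h
        apply hr
        rw [hc, h, (hv j hj).2 j0, if_neg]
        intro h'
        rw [← h'] at hj
        exact lt_irrefl _ hj
      have hvj0 : ∀ j : Fin n, j.val < k → M' (v j) j0 = 0 := by
        intro j hj
        rw [(hv j hj).2 j0, if_neg]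
        intro h'
        rw [← h'] at hj
        exact lt_irrefl _ hj
      have hrj : ∀ j : Fin n, j.val < k → M' r j = 0 := by
        intro j hj
        rw [(hv j hj).1 r, if_neg (hrv j hj)]
      -- the left operation
      let d : Fin n → K := fun i => if i < r then - M' i j0 / c else if i = r then 1 / c - 1 else 0
      let a1 : Matrix (Fin n) (Fin n) K := 1 + Matrix.of fun i l => if l = r then d i else 0
      have ha1 : ∀ i l, (a1 * M') i l = M' i l + d i * M' r l := by
        intro i l
        simp [a1, Matrix.mul_apply, add_mul, Finset.sum_add_distrib, Matrix.one_apply]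
      let N := a1 * M'
      let g : Fin n → K := fun l => if j0 < l then - N r l else 0
      let b1 : Matrix (Fin n) (Fin n) K := 1 + Matrix.of fun i l => if i = j0 then g l else 0
      have hb1 : ∀ i l, (N * b1) i l = N i l + N i j0 * g l := by
        intro i l
        simp [b1, Matrix.mul_apply, mul_add, Finset.sum_add_distrib, Matrix.one_apply]
      have hUa : Up a1 := by
        refine ⟨fun i j hij => ?_, fun i => ?_⟩
        · simp only [a1, Matrix.add_apply, Matrix.of_apply, Matrix.one_apply_ne (ne_of_gt hij),
            zero_add]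
          split_ifs with h
          · subst h
            simp [d, not_lt_of_gt hij, ne_of_gt hij]
          · rfl
        · simp only [a1, Matrix.add_apply, Matrix.of_apply, Matrix.one_apply_eq]
          split_ifs with h
          · subst h
            simp [d, hr]
          · simp
      have hUb : Up b1 := by
        refine ⟨fun i j hij => ?_, fun i => ?_⟩
        · simp only [b1, Matrix.add_apply, Matrix.of_apply, Matrix.one_apply_ne (ne_of_gt hij),
            zero_add]
          split_ifs with h
          · subst h
            simp [g, not_lt_of_gt hij]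
          · rfl
        · simp only [b1, Matrix.add_apply, Matrix.of_apply, Matrix.one_apply_eq]
          split_ifs with h
          · subst h
            simp [g]
          · simp
      have hNj0 : ∀ i, N i j0 = if i = r then 1 else 0 := by
        intro i
        change (a1 * M') i j0 = _
        rw [ha1, ← hc]
        rcases lt_trichotomy i r with h | h | h
        · simp only [d, if_pos h, if_neg (ne_of_lt h)]
          field_simp
          ring
        · subst h
          simp only [d, lt_irrefl, if_false, if_true, ← hc]
          field_simp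
          ring
        · simp only [d, not_lt_of_gt h, ne_of_gt h, if_false]
          rw [hrmax i h]
          ring
      have hNj : ∀ j : Fin n, j.val < k → ∀ i, N i j = M' i j := by
        intro j hj i
        change (a1 * M') i j = _
        rw [ha1, hrj j hj, mul_zero, add_zero]
      have hNv : ∀ j : Fin n, j.val < k → ∀ l, N (v j) l = M' (v j) l := by
        intro j hj l
        change (a1 * M') (v j) l = _
        rw [ha1]
        have : d (v j) = 0 := by
          simp only [d]
          rw [hvj0 j hj, if_neg (hrv j hj).symm]
          simp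
        rw [this, zero_mul, add_zero]
      refine ⟨a1 * a, b * b1, Function.update v j0 r, hUa.mul ha, hb.mul hUb, ?_⟩
      have hprod : a1 * a * M * (b * b1) = N * b1 := by
        change _ = a1 * M' * b1
        rw [hM']
        simp only [Matrix.mul_assoc]
      rw [hprod]
      intro j hj
      by_cases hjk : j.val < k
      · have hjne : j ≠ j0 := by
          intro h
          rw [h] at hjk
          exact lt_irrefl _ hjk
        have hg : g j = 0 := by
          simp only [g]
          rw [if_neg]
          rw [Fin.lt_def]
          exact not_lt_of_gt hjk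
        refine ⟨fun i => ?_, fun l => ?_⟩
        · rw [hb1, hg, mul_zero, add_zero, hNj j hjk, (hv j hjk).1 i,
            Function.update_of_ne hjne]
        · rw [Function.update_of_ne hjne, hb1, hNj0, if_neg (hrv j hjk).symm, zero_mul, add_zero,
            hNv j hjk, (hv j hjk).2 l]
      · have hjj : j = j0 := by
          apply Fin.ext
          change j.val = k
          omega
        subst hjj
        have hg : g j0 = 0 := by simp [g]
        refine ⟨fun i => ?_, fun l => ?_⟩
        · rw [hb1, hg, mul_zero, add_zero, hNj0, Function.update_self]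
        · rw [Function.update_self, hb1, hNj0, if_pos rfl, one_mul]
          rcases lt_trichotomy l j0 with h | h | h
          · have hl : l.val < k := h
            rw [if_neg (ne_of_lt h)]
            simp only [g]
            rw [if_neg (not_lt_of_gt h), add_zero, hNj l hl, hrj l hl]
          · subst h
            rw [hg, hNj0, if_pos rfl, if_pos rfl, add_zero]
          · rw [if_neg (ne_of_gt h)]
            simp only [g]
            rw [if_pos h]
            ring
  obtain ⟨a, b, v, ha, hb, hv⟩ := key n le_rfl
  have hinj : Function.Injective v := by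
    intro j j' h
    have h1 := (hv j j.2).2 j
    have h2 := (hv j' j'.2).2 j
    rw [h] at h1
    rw [h1, if_pos rfl] at h2
    by_contra hne
    rw [if_neg hne] at h2
    exact one_ne_zero h2
  let w : Equiv.Perm (Fin n) := Equiv.ofBijective v (Finite.injective_iff_bijective.1 hinj)
  refine ⟨w, a⁻¹, b⁻¹, ha.inv, hb.inv, ?_⟩
  have h1 : a * M * b = permMat K w := by
    ext i j
    rw [(hv j j.2).1 i]
    rfl
  rw [← h1]
  have ha' : IsUnit a.det := isUnit_iff_ne_zero.2 ha.det_ne_zero
  have hb' : IsUnit b.det := isUnit_iff_ne_zero.2 hb.det_ne_zero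
  rw [Matrix.mul_assoc a M b, ← Matrix.mul_assoc a⁻¹, Matrix.nonsing_inv_mul _ ha', Matrix.one_mul,
    Matrix.mul_assoc, Matrix.mul_nonsing_inv _ hb', Matrix.mul_one]

end Pool.Agent.Hhelper10.Schub
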