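import Pool.Agent.Hhelper10.Schub.Irr

/-!
# Membership in Bruhat cells and the ideals of cells
-/

namespace Pool.Agent.Hhelper10.Schub

open Matrix MvPolynomial

variable {n : ℕ}

theorem InCell.apply_eq {K : Type*} [Field K] {v : Equiv.Perm (Fin n)}
    {a b : Matrix (Fin n) (Fin n) K} (i j : Fin n) :
    (a * permMat K v * b) i j = ∑ l, a i (v l) * b l j := by
  rw [Matrix.mul_apply]
  apply Finset.sum_congr rfl
  intro l _
  congr 1
  simp [permMat, Matrix.mul_apply]

/-- A nonzero entry of `M ∈ B v B` forces an entry of `v` in the corresponding corner. -/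
theorem InCell.exists_of_ne {K : Type*} [Field K] {v : Equiv.Perm (Fin n)}
    {M : Matrix (Fin n) (Fin n) K} (h : InCell v M) {i j : Fin n} (hM : M i j ≠ 0) :
    ∃ l, l ≤ j ∧ i ≤ v l := by
  obtain ⟨a, b, ha, hb, rfl⟩ := h
  rw [InCell.apply_eq] at hM
  obtain ⟨l, _, hl⟩ := Finset.exists_ne_zero_of_sum_ne_zero hM
  refine ⟨l, ?_, ?_⟩
  · by_contra hcon
    exact hl (by rw [hb.1 l j (not_le.1 hcon), mul_zero])
  · by_contra hcon
    exact hl (by rw [ha.1 i (v l) (not_le.1 hcon), zero_mul])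

/-- The lowest nonzero entry of the first column. -/
theorem InCell.first_col {K : Type*} [Field K] {m : ℕ} {v : Equiv.Perm (Fin (m + 1))}
    {M : Matrix (Fin (m + 1)) (Fin (m + 1)) K} (h : InCell v M) : M (v 0) 0 ≠ 0 := by
  obtain ⟨a, b, ha, hb, rfl⟩ := h
  rw [InCell.apply_eq, Finset.sum_eq_single 0]
  · exact mul_ne_zero (ha.2 _) (hb.2 _)
  · intro l _ hl
    rw [hb.1 l 0 (Fin.pos_of_ne_zero hl), mul_zero]
  · simp

/-- The first nonzero entry of the last row. -/
theorem InCell.last_row {K : Type*} [Field K] {m : ℕ} {v : Equiv.Perm (Fin (m + 1))}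
    {M : Matrix (Fin (m + 1)) (Fin (m + 1)) K} (h : InCell v M) :
    M (Fin.last m) (v.symm (Fin.last m)) ≠ 0 := by
  obtain ⟨a, b, ha, hb, rfl⟩ := h
  rw [InCell.apply_eq, Finset.sum_eq_single (v.symm (Fin.last m))]
  · rw [Equiv.apply_symm_apply]
    exact mul_ne_zero (ha.2 _) (hb.2 _)
  · intro l _ hl
    rw [ha.1, zero_mul]
    apply lt_of_le_of_ne (Fin.le_last _)
    intro h'
    apply hl
    rw [← h', Equiv.symm_apply_apply]
  · simp

theorem InCell.det_ne_zero {K : Type*} [Field K] {v : Equiv.Perm (Fin n)}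
    {M : Matrix (Fin n) (Fin n) K} (h : InCell v M) : M.det ≠ 0 := by
  obtain ⟨a, b, ha, hb, rfl⟩ := h
  rw [Matrix.det_mul, Matrix.det_mul]
  refine mul_ne_zero (mul_ne_zero ha.det_ne_zero ?_) hb.det_ne_zero
  intro h0
  have h1 : (permMat K v * permMat K v⁻¹).det = 1 := by
    rw [permMat_mul_permMat, mul_inv_cancel, permMat_one, Matrix.det_one]
  rw [Matrix.det_mul, h0, zero_mul] at h1
  exact zero_ne_one h1

theorem InCell.inv {K : Type*} [Field K] {v : Equiv.Perm (Fin n)}
    {M : Matrix (Fin n) (Fin n) K} (h : InCell v M) : InCell v⁻¹ M⁻¹ := by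
  obtain ⟨a, b, ha, hb, rfl⟩ := h
  refine ⟨b⁻¹, a⁻¹, hb.inv, ha.inv, ?_⟩
  have h1 : (permMat K v)⁻¹ = permMat K v⁻¹ := by
    apply Matrix.inv_eq_right_inv
    rw [permMat_mul_permMat, mul_inv_cancel, permMat_one]
  rw [Matrix.mul_inv_rev, Matrix.mul_inv_rev, h1, Matrix.mul_assoc]

theorem adjugate_eq_det_mul_inv {K : Type*} [Field K] {M : Matrix (Fin n) (Fin n) K}
    (hM : M.det ≠ 0) (i j : Fin n) : M.adjugate i j = M.det * M⁻¹ i j := by
  rw [Matrix.inv_def, Matrix.smul_apply, smul_eq_mul, Ring.inverse_eq_inv', ← mul_assoc,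
    mul_inv_cancel₀ hM, one_mul]

/-- A nonzero entry of the adjugate forces an entry of `v⁻¹` in the corresponding corner. -/
theorem InCell.exists_of_adjugate_ne {K : Type*} [Field K] {v : Equiv.Perm (Fin n)}
    {M : Matrix (Fin n) (Fin n) K} (h : InCell v M) {i j : Fin n} (hM : M.adjugate i j ≠ 0) :
    ∃ l, l ≤ j ∧ i ≤ v.symm l := by
  rw [adjugate_eq_det_mul_inv h.det_ne_zero] at hM
  exact h.inv.exists_of_ne (right_ne_zero_of_mul hM)

theorem InCell.adjugate_last {K : Type*} [Field K] {m : ℕ} {v : Equiv.Perm (Fin (m + 1))}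
    {M : Matrix (Fin (m + 1)) (Fin (m + 1)) K} (h : InCell v M) :
    M.adjugate (Fin.last m) 0 = 0 ↔ v (Fin.last m) ≠ 0 := by
  constructor
  · intro h0 hv
    have h1 := h.inv.last_row
    have h2 : (v⁻¹).symm (Fin.last m) = 0 := hv
    rw [h2] at h1
    rw [adjugate_eq_det_mul_inv h.det_ne_zero] at h0
    rcases mul_eq_zero.1 h0 with h3 | h3
    · exact h.det_ne_zero h3
    · exact h1 h3
  · intro hv
    by_contra hne
    obtain ⟨l, hl, hl'⟩ := h.exists_of_adjugate_ne hne
    have h1 : l = 0 := le_antisymm hl (Fin.zero_le _)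
    have h2 : v.symm l = Fin.last m := le_antisymm (Fin.le_last _) hl'
    apply hv
    rw [← h2, Equiv.apply_symm_apply, h1]

/-- A `2 × 2` minor vanishes if only one entry of `v` lies in the corner. -/
theorem InCell.minor_eq_zero {K : Type*} [Field K] {v : Equiv.Perm (Fin n)}
    {M : Matrix (Fin n) (Fin n) K} (h : InCell v M) (l0 : Fin n) {i i' j j' : Fin n}
    (hii : i ≤ i') (hjj : j ≤ j')
    (hcorner : ∀ l, l ≤ j' → i ≤ v l → l = l0) :
    M i j * M i' j' - M i j' * M i' j = 0 := by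
  obtain ⟨a, b, ha, hb, rfl⟩ := h
  have key : ∀ s t : Fin n, i ≤ s → t ≤ j' →
      (a * permMat K v * b) s t = a s (v l0) * b l0 t := by
    intro s t hs ht
    rw [InCell.apply_eq, Finset.sum_eq_single l0]
    · intro l _ hl
      by_cases h1 : l ≤ j'
      · have h2 : ¬ i ≤ v l := fun h => hl (hcorner l h1 h)
        rw [ha.1 s (v l) (lt_of_lt_of_le (not_le.1 h2) hs), zero_mul]
      · rw [hb.1 l t (lt_of_le_of_lt ht (not_le.1 h1)), mul_zero]
    · simp
  rw [key i j le_rfl hjj, key i' j' hii le_rfl, key i j' le_rfl le_rfl, key i' j hii hjj]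
  ring

theorem aeval_adjEntry {m : ℕ} (M : Matrix (Fin (m + 1)) (Fin (m + 1)) ℂ) :
    aeval (entries M) (adjEntry m) = M.adjugate (Fin.last m) 0 := by
  have h1 := RingHom.map_adjugate
    ((aeval (entries M) : PMat (m + 1) →ₐ[ℂ] ℂ) : PMat (m + 1) →+* ℂ) (genMat (m + 1))
  have h2 := congrFun (congrFun h1 (Fin.last m)) 0
  rw [RingHom.mapMatrix_apply, Matrix.map_apply, RingHom.mapMatrix_apply] at h2
  have h3 : (genMat (m + 1)).map
      ((aeval (entries M) : PMat (m + 1) →ₐ[ℂ] ℂ) : PMat (m + 1) →+* ℂ) = M :=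
    genMat_map (entries M)
  rw [h3] at h2
  exact h2

/-- The conditions defining `condIdeal Z`. -/
def Cond {m : ℕ} (Z : Finset (Fin (m + 1) × Fin (m + 1)))
    (M : Matrix (Fin (m + 1)) (Fin (m + 1)) ℂ) : Prop :=
  (∀ p ∈ Z, M p.1 p.2 = 0) ∧ M.adjugate (Fin.last m) 0 = 0

theorem mem_zeroLocus_condIdeal {m : ℕ} {Z : Finset (Fin (m + 1) × Fin (m + 1))}
    {x : Fin (m + 1) × Fin (m + 1) → ℂ} :
    x ∈ zeroLocus ℂ (condIdeal Z) ↔ Cond Z (toMat x) := by
  constructor
  · intro h
    refine ⟨fun p hp => ?_, ?_⟩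
    · have := h (X p) (Ideal.mem_sup_left (Ideal.subset_span ⟨p, hp, rfl⟩))
      rw [aeval_X] at this
      exact this
    · have := h (adjEntry m) (Ideal.mem_sup_right (Ideal.mem_span_singleton_self _))
      rw [← aeval_adjEntry]
      exact this
  · rintro ⟨h1, h2⟩
    have h3 : condIdeal Z ≤ RingHom.ker (aeval x : PMat (m + 1) →ₐ[ℂ] ℂ) := by
      rw [condIdeal, sup_le_iff]
      constructor
      · rw [zeroIdeal, Ideal.span_le]
        rintro _ ⟨p, hp, rfl⟩
        change aeval x (X p) = 0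
        rw [aeval_X]
        exact h1 p hp
      · rw [Ideal.span_le, Set.singleton_subset_iff]
        change aeval x (adjEntry m) = 0
        rw [← aeval_adjEntry] at h2
        exact h2
    intro F hF
    exact h3 hF

/-- The ideal of a cell, when it is cut out by `Cond Z`. -/
theorem cellIdeal_eq_condIdeal {m : ℕ} {w : Equiv.Perm (Fin (m + 1))}
    {Z : Finset (Fin (m + 1) × Fin (m + 1))} (hprime : (condIdeal Z).IsPrime)
    (hvan : ∀ M, InCell w M → Cond Z M) (h : PMat (m + 1))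
    (hh : ∀ M, Cond Z M → aeval (entries M) h ≠ 0 → InCell w M)
    (hx : ∃ M, Cond Z M ∧ aeval (entries M) h ≠ 0) :
    cellIdeal w = condIdeal Z := by
  apply le_antisymm
  · intro F hF
    have h1 : F * h ∈ vanishingIdeal ℂ (zeroLocus ℂ (condIdeal Z)) := by
      intro x hx
      rw [mem_zeroLocus_condIdeal] at hx
      rw [map_mul]
      by_cases h0 : aeval x h = 0
      · rw [h0, mul_zero]
      · have : InCell w (toMat x) := hh (toMat x) hx h0
        rw [hF x this, zero_mul]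
    rw [IsPrime.vanishingIdeal_zeroLocus] at h1
    rcases hprime.mem_or_mem h1 with h2 | h2
    · exact h2
    · exfalso
      obtain ⟨M, hM, hM'⟩ := hx
      have h3 : entries M ∈ zeroLocus ℂ (condIdeal Z) := mem_zeroLocus_condIdeal.2 hM
      exact hM' (h3 h h2)
  · intro F hF x hx
    exact (mem_zeroLocus_condIdeal.2 (hvan _ hx)) F hF

end Pool.Agent.Hhelper10.Schub
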