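import Pool.Agent.Hhelper10.Schub.LU

/-!
# The ideal of a Schubert variety in a chart
-/

namespace Pool.Agent.Hhelper10.Schub

open Matrix MvPolynomial

variable {n : ℕ}

/-- The matrix with entries `x`. -/
def toMat {n : ℕ} {R : Type*} (x : Fin n × Fin n → R) : Matrix (Fin n) (Fin n) R :=
  Matrix.of fun i j => x (i, j)

/-- Polynomial functions on `n × n` matrices. -/
abbrev PMat (n : ℕ) : Type := MvPolynomial (Fin n × Fin n) ℂ

/-- The generic matrix. -/
noncomputable def genMat (n : ℕ) : Matrix (Fin n) (Fin n) (MvPolynomial (Fin n × Fin n) ℂ) :=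
  toMat X

theorem genMat_map {S : Type*} [CommRing S] [Algebra ℂ S] (x : Fin n × Fin n → S) :
    (genMat n).map (aeval x : MvPolynomial (Fin n × Fin n) ℂ →ₐ[ℂ] S) = toMat x := by
  ext i j
  simp [genMat, toMat]

/-- The ideal of polynomials vanishing on `B w B`. -/
noncomputable def cellIdeal (w : Equiv.Perm (Fin n)) : Ideal (MvPolynomial (Fin n × Fin n) ℂ) :=
  vanishingIdeal ℂ {x : Fin n × Fin n → ℂ | InCell w (toMat x)}

/-- Restriction of polynomial functions on matrices to the chart centred at `e_u`. -/
noncomputable def restr (u : Equiv.Perm (Fin n)) :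
    MvPolynomial (Fin n × Fin n) ℂ →ₐ[ℂ] MvPolynomial (Lo n) ℂ :=
  aeval fun p => (permMat (MvPolynomial (Lo n) ℂ) u * lowerUni X :
    Matrix (Fin n) (Fin n) (MvPolynomial (Lo n) ℂ)) p.1 p.2

theorem genMat_restr (u : Equiv.Perm (Fin n)) :
    (genMat n).map (restr u) = permMat _ u * lowerUni X := by
  rw [restr, genMat_map]
  rfl

/-- Cells are stable under right multiplication by `B`. -/
theorem InCell.mul_up {w : Equiv.Perm (Fin n)} {M b : Matrix (Fin n) (Fin n) ℂ}
    (h : InCell w M) (hb : Up b) : InCell w (M * b) := by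
  obtain ⟨a, b', ha, hb', rfl⟩ := h
  exact ⟨a, b' * b, ha, hb'.mul hb, by rw [Matrix.mul_assoc]⟩

/-- The product of the leading principal minors of `u⁻¹ M`. -/
noncomputable def denom (u : Equiv.Perm (Fin n)) : MvPolynomial (Fin n × Fin n) ℂ :=
  (∏ i : Fin n, (lead (permMat _ u⁻¹ * genMat n) i).det) * (permMat _ u⁻¹ * genMat n).det

theorem map_lead_det {R S : Type*} [CommRing R] [CommRing S] (f : R →+* S)
    (M : Matrix (Fin n) (Fin n) R) (i : Fin n) :
    f (lead M i).det = (lead (M.map f) i).det := by
  rw [RingHom.map_det]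
  rfl

theorem lead_lowerUni_det {R : Type*} [CommRing R] (z : Lo n → R) (i : Fin n) :
    (lead (lowerUni z) i).det = 1 := by
  rw [Matrix.det_of_isLowerTriangular]
  · apply Finset.prod_eq_one
    intro k _
    simp [lead, lowerUni_self]
  · intro k l hkl
    exact lowerUni_gt z hkl

theorem mem_map_cellIdeal {w u : Equiv.Perm (Fin n)} {g : MvPolynomial (Lo n) ℂ}
    (hg : ∀ z : Lo n → ℂ, InCell w (permMat ℂ u * lowerUni z) → aeval z g = 0) :
    g ∈ (cellIdeal w).map (restr u) := by
  set D : PMat n := denom u with hD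
  -- the generic matrix over the localisation
  set M : Matrix (Fin n) (Fin n) (Localization.Away D) :=
    (permMat _ u⁻¹ * genMat n).map (algebraMap (PMat n) (Localization.Away D)) with hM
  have hDunit : IsUnit (algebraMap (PMat n) (Localization.Away D) D) :=
    IsLocalization.Away.algebraMap_isUnit D
  have hlead : ∀ i : Fin n, IsUnit (lead M i).det := by
    intro i
    rw [hM, ← map_lead_det]
    refine isUnit_of_dvd_unit (map_dvd _ ?_) hDunit
    rw [hD, denom]
    exact Dvd.dvd.mul_right (Finset.dvd_prod_of_mem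
      (fun i => (lead (permMat (PMat n) u⁻¹ * genMat n) i).det) (Finset.mem_univ i)) _
  have hdet : IsUnit M.det := by
    rw [hM, ← RingHom.mapMatrix_apply, ← RingHom.map_det]
    refine isUnit_of_dvd_unit (map_dvd _ ?_) hDunit
    rw [hD, denom]
    exact dvd_mul_left _ _
  obtain ⟨ζ, U, hU, hUu, hMU⟩ := exists_LU M hlead hdet
  obtain ⟨k, G0, hG0⟩ := IsLocalization.Away.surj D (aeval ζ g : Localization.Away D)
  -- general principle
  have key : ∀ {S : Type} [CommRing S] [Algebra ℂ S] (f : PMat n →ₐ[ℂ] S) (hf : IsUnit (f D)),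
      ∃ (z : Lo n → S) (V : Matrix (Fin n) (Fin n) S), (∀ i j, j < i → V i j = 0) ∧
        (∀ i, IsUnit (V i i)) ∧ permMat S u⁻¹ * (genMat n).map f = lowerUni z * V ∧
        f G0 = aeval z g * f D ^ k := by
    intro S _ _ f hf
    let F : Localization.Away D →+* S := IsLocalization.Away.lift (g := (f : PMat n →+* S)) D hf
    have hF : ∀ a : PMat n, F (algebraMap (PMat n) _ a) = f a := fun a =>
      IsLocalization.Away.lift_eq (g := (f : PMat n →+* S)) D hf a
    refine ⟨fun p => F (ζ p), U.map F, fun i j hij => ?_, fun i => ?_, ?_, ?_⟩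
    · rw [Matrix.map_apply, hU i j hij, map_zero]
    · rw [Matrix.map_apply]
      exact (hUu i).map F
    · rw [← lowerUni_map, ← Matrix.map_mul, ← hMU, hM, Matrix.map_map]
      have : (F ∘ (algebraMap (PMat n) (Localization.Away D))) = f := by
        funext a
        exact hF a
      rw [this]
      have h2 := Matrix.map_mul (L := permMat (PMat n) u⁻¹) (M := genMat n) (f := (f : PMat n →+* S))
      rw [permMat_map] at h2
      exact h2.symm
    · have h1 : F (aeval ζ g) = aeval (fun p => F (ζ p)) g := by
        have h3 : (F.comp (aeval ζ : MvPolynomial (Lo n) ℂ →ₐ[ℂ] _).toRingHom) =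
            ((aeval (fun p => F (ζ p)) : MvPolynomial (Lo n) ℂ →ₐ[ℂ] S) : _ →+* S) := by
          apply MvPolynomial.ringHom_ext
          · intro r
            simp only [AlgHom.toRingHom_eq_coe, RingHom.coe_comp, RingHom.coe_coe,
              Function.comp_apply, algHom_C]
            rw [IsScalarTower.algebraMap_apply ℂ (PMat n) (Localization.Away D), hF]
            exact f.commutes r
          · intro i
            simp
        exact RingHom.congr_fun h3 g
      have h2 := congrArg F hG0
      rw [map_mul, map_pow, hF, hF, h1] at h2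
      exact h2.symm
  have hmem : G0 * D ∈ cellIdeal w := by
    intro x hx
    rw [map_mul]
    by_cases hDx : aeval x D = 0
    · rw [hDx, mul_zero]
    · obtain ⟨z, V, hV, hVu, hMV, hG⟩ := key (aeval x : PMat n →ₐ[ℂ] ℂ) (isUnit_iff_ne_zero.2 hDx)
      rw [genMat_map] at hMV
      have hVup : Up V := ⟨hV, fun i => (hVu i).ne_zero⟩
      have h1 : permMat ℂ u * lowerUni z = toMat x * V⁻¹ := by
        have h2 : toMat x = permMat ℂ u * (lowerUni z * V) := by
          rw [← hMV, ← Matrix.mul_assoc, permMat_mul_permMat, mul_inv_cancel, permMat_one,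
            Matrix.one_mul]
        rw [h2, Matrix.mul_assoc, Matrix.mul_assoc,
          Matrix.mul_nonsing_inv _ (isUnit_iff_ne_zero.2 hVup.det_ne_zero), Matrix.mul_one]
      have h3 : InCell w (permMat ℂ u * lowerUni z) := by
        rw [h1]
        exact InCell.mul_up hx hVup.inv
      rw [hG, hg z h3, zero_mul, zero_mul]
  have hD1 : restr u D = 1 := by
    have h1 : (permMat (PMat n) u⁻¹ * genMat n).map (restr u : PMat n →+* MvPolynomial (Lo n) ℂ) =
        lowerUni X := by
      rw [Matrix.map_mul, permMat_map]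
      have h2 : (genMat n).map (restr u : PMat n →+* MvPolynomial (Lo n) ℂ) =
        permMat _ u * lowerUni X := genMat_restr u
      rw [h2, ← Matrix.mul_assoc, permMat_mul_permMat, inv_mul_cancel, permMat_one,
        Matrix.one_mul]
    change (restr u : PMat n →+* MvPolynomial (Lo n) ℂ) D = 1
    rw [hD, denom, map_mul, map_prod]
    simp_rw [map_lead_det]
    rw [RingHom.map_det, RingHom.mapMatrix_apply, h1, det_lowerUni]
    simp_rw [lead_lowerUni_det]
    simp
  have hres : restr u (G0 * D) = g := by
    obtain ⟨z, V, hV, hVu, hMV, hG⟩ := key (restr u) (by rw [hD1]; exact isUnit_one)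
    rw [genMat_restr, ← Matrix.mul_assoc, permMat_mul_permMat, inv_mul_cancel, permMat_one,
        Matrix.one_mul] at hMV
    have hz : X = z := LU_unique hV hMV
    rw [map_mul, hG, hD1, ← hz, one_pow, mul_one, mul_one]
    simp
  rw [← hres]
  exact Ideal.mem_map_of_mem _ hmem

end Pool.Agent.Hhelper10.Schub
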