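import Pool.Agent.Hhelper10.Schub.Chart

/-!
# The ideal of a Schubert variety in a chart, II
-/

namespace Pool.Agent.Hhelper10.Schub

open Matrix MvPolynomial

variable {n : ℕ}

/-- The entries of a matrix. -/
def entries {n : ℕ} {R : Type*} (M : Matrix (Fin n) (Fin n) R) : Fin n × Fin n → R :=
  fun p => M p.1 p.2

theorem toMat_entries {R : Type*} (M : Matrix (Fin n) (Fin n) R) : toMat (entries M) = M := rfl

theorem up_of_mem_borel {b : GL (Fin n) ℂ} (hb : b ∈ borel n) :
    Up (b : Matrix (Fin n) (Fin n) ℂ) := by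
  refine ⟨fun i j hij => hb i j hij, fun i hi => ?_⟩
  have h1 : (b : Matrix (Fin n) (Fin n) ℂ).det ≠ 0 := by
    exact b.det.ne_zero
  rw [Matrix.det_of_isUpperTriangular (fun i j h => hb i j h)] at h1
  exact h1 (Finset.prod_eq_zero (Finset.mem_univ i) hi)

/-- An invertible upper triangular matrix, as an element of the Borel subgroup. -/
noncomputable def upGL (M : Matrix (Fin n) (Fin n) ℂ) (hM : Up M) : GL (Fin n) ℂ :=
  Matrix.GeneralLinearGroup.mkOfDetNeZero M hM.det_ne_zero

theorem upGL_mem (M : Matrix (Fin n) (Fin n) ℂ) (hM : Up M) : upGL M hM ∈ borel n :=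
  fun i j hij => hM.1 i j hij

theorem mk_mem_orbit_iff {w : Equiv.Perm (Fin n)} {g : GL (Fin n) ℂ} :
    (g : Flags n) ∈ {x : Flags n | ∃ b ∈ borel n, x = b • flagPt w} ↔
      InCell w (g : Matrix (Fin n) (Fin n) ℂ) := by
  constructor
  · rintro ⟨b, hb, h⟩
    have h1 : (g : Flags n) = ((b * permGL w : GL (Fin n) ℂ) : Flags n) := h
    rw [eq_comm, QuotientGroup.eq] at h1
    refine ⟨b, (((b * permGL w)⁻¹ * g : GL (Fin n) ℂ) : Matrix (Fin n) (Fin n) ℂ),
      up_of_mem_borel hb, up_of_mem_borel h1, ?_⟩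
    have h2 : g = b * permGL w * ((b * permGL w)⁻¹ * g) := by group
    exact congrArg Units.val h2
  · rintro ⟨a, b, ha, hb, h⟩
    refine ⟨upGL a ha, upGL_mem a ha, ?_⟩
    change (g : Flags n) = ((upGL a ha * permGL w : GL (Fin n) ℂ) : Flags n)
    rw [eq_comm, QuotientGroup.eq]
    have h2 : g = upGL a ha * permGL w * upGL b hb := by
      apply Units.ext
      exact h
    have h3 : (upGL a ha * permGL w)⁻¹ * g = upGL b hb := by
      rw [h2]
      group
    rw [h3]
    exact upGL_mem b hb

theorem aeval_eq_zero_of_mem_schubert {w : Equiv.Perm (Fin n)} {F : PMat n}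
    (hF : F ∈ cellIdeal w) {g : GL (Fin n) ℂ} (hg : (g : Flags n) ∈ schubert w) :
    aeval (entries (g : Matrix (Fin n) (Fin n) ℂ)) F = 0 := by
  have h1 : g ∈ closure ((fun g : GL (Fin n) ℂ => (g : Flags n)) ⁻¹'
      {x | ∃ b ∈ borel n, x = b • flagPt w}) :=
    IsOpenMap.preimage_closure_subset_closure_preimage QuotientGroup.isOpenMap_coe hg
  have hcont : Continuous fun g : GL (Fin n) ℂ =>
      aeval (entries (g : Matrix (Fin n) (Fin n) ℂ)) F := by
    simp only [MvPolynomial.aeval_eq_eval]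
    apply (MvPolynomial.continuous_eval F).comp
    apply continuous_pi
    intro p
    exact (Units.continuous_val (M := Matrix (Fin n) (Fin n) ℂ)).matrix_elem p.1 p.2
  have hclosed : IsClosed {g : GL (Fin n) ℂ |
      aeval (entries (g : Matrix (Fin n) (Fin n) ℂ)) F = 0} :=
    isClosed_eq hcont continuous_const
  refine closure_minimal ?_ hclosed h1
  intro g' hg'
  have h2 : InCell w (g' : Matrix (Fin n) (Fin n) ℂ) := mk_mem_orbit_iff.1 hg'
  exact hF _ h2

theorem aeval_restr (u : Equiv.Perm (Fin n)) (z : Lo n → ℂ) (F : PMat n) :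
    aeval z (restr u F) = aeval (entries (permMat ℂ u * lowerUni z)) F := by
  rw [restr, ← AlgHom.comp_apply]
  congr 1
  ext p
  rw [AlgHom.comp_apply, aeval_X, aeval_X]
  have h1 : ((permMat (MvPolynomial (Lo n) ℂ) u * lowerUni X).map
      ((aeval z : MvPolynomial (Lo n) ℂ →ₐ[ℂ] ℂ) : MvPolynomial (Lo n) ℂ →+* ℂ)) =
      permMat ℂ u * lowerUni z := by
    rw [Matrix.map_mul, permMat_map, lowerUni_map]
    simp
  have h2 := congrFun (congrFun h1 p.1) p.2
  exact h2

/-- The ideal of `X_w` in the chart centred at `e_u` is the restriction of the ideal of `B w B`. -/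
theorem vanishingIdeal_chartSet (w u : Equiv.Perm (Fin n)) :
    vanishingIdeal ℂ (chartSet w u) = (cellIdeal w).map (restr u) := by
  apply le_antisymm
  · intro g hg
    apply mem_map_cellIdeal
    intro z hz
    apply hg
    apply subset_closure
    exact mk_mem_orbit_iff.2 hz
  · rw [Ideal.map_le_iff_le_comap]
    intro F hF z hz
    rw [aeval_restr]
    exact aeval_eq_zero_of_mem_schubert hF (g := permGL u * lowerGL z) hz

end Pool.Agent.Hhelper10.Schub
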