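import Mathlib

/-!
# Flag varieties, Schubert varieties and their local rings at the torus fixed points
-/

namespace Pool.Agent.Hhelper10.Schub

open MvPolynomial IsLocalRing Matrix

/-! ### Multiplicity of a local ring -/

/-- `P` is the Hilbert-Samuel polynomial of the local ring `R`: for all large `k` the length of
`R / 𝔪 ^ (k + 1)` is finite and equal to `P(k)`. -/
def IsHilbertSamuelPoly (R : Type*) [CommRing R] [IsLocalRing R] (P : Polynomial ℚ) : Prop :=
  ∃ N : ℕ, ∀ k : ℕ, N ≤ k → ∃ l : ℕ,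
    Module.length R (R ⧸ (maximalIdeal R) ^ (k + 1)) = (l : ℕ∞) ∧ (l : ℚ) = P.eval (k : ℚ)

/-- The local ring `R` has multiplicity `m`: its Hilbert-Samuel polynomial is
`a_d x ^ d + ⋯ + a_0` with `d = dim R` (Krull dimension), and `m = d! a_d`. -/
def HasMultiplicity (R : Type*) [CommRing R] [IsLocalRing R] (m : ℚ) : Prop :=
  ∃ (P : Polynomial ℚ) (d : ℕ), IsHilbertSamuelPoly R P ∧ ringKrullDim R = (d : WithBot ℕ∞) ∧
    m = (d.factorial : ℚ) * P.coeff d

/-! ### Flag varieties and Schubert varieties -/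

/-- The Borel subgroup `B ⊆ GL_n(ℂ)` of invertible upper triangular matrices. -/
def borel (n : ℕ) : Subgroup (GL (Fin n) ℂ) where
  carrier := {g | ∀ i j : Fin n, j < i → (g : Matrix (Fin n) (Fin n) ℂ) i j = 0}
  mul_mem' {a b} ha hb := by
    intro i j hij
    rw [Units.val_mul, Matrix.mul_apply]
    apply Finset.sum_eq_zero
    intro k _
    rcases lt_or_ge k i with h | h
    · rw [ha i k h, zero_mul]
    · rw [hb k j (lt_of_lt_of_le hij h), mul_zero]
  one_mem' := by
    intro i j hij
    rw [Units.val_one, Matrix.one_apply_ne (ne_of_gt hij)]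
  inv_mem' {a} ha := by
    have h : BlockTriangular (a : Matrix (Fin n) (Fin n) ℂ) id := fun i j hij => ha i j hij
    let _ : Invertible (a : Matrix (Fin n) (Fin n) ℂ) := a.invertible
    have h2 := blockTriangular_inv_of_blockTriangular h
    intro i j hij
    rw [Matrix.coe_units_inv]
    exact h2 hij

/-- The flag variety `Flags(ℂ^n) = GL_n(ℂ) / B`, with the quotient topology. -/
abbrev Flags (n : ℕ) : Type := GL (Fin n) ℂ ⧸ borel n

/-- The permutation matrix of `w`: its `j`-th column is the basis vector `e_{w(j)}`. -/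
def permMat {n : ℕ} (R : Type*) [Zero R] [One R] (w : Equiv.Perm (Fin n)) :
    Matrix (Fin n) (Fin n) R :=
  Matrix.of fun i j => if i = w j then 1 else 0

theorem permMat_mul_permMat {n : ℕ} {R : Type*} [Semiring R] (v w : Equiv.Perm (Fin n)) :
    permMat R v * permMat R w = permMat R (v * w) := by
  ext i j
  simp [permMat, Matrix.mul_apply]

theorem permMat_one {n : ℕ} {R : Type*} [Semiring R] :
    permMat R (1 : Equiv.Perm (Fin n)) = 1 := by
  ext i j
  simp [permMat, Matrix.one_apply]

/-- The permutation matrix as an element of `GL_n(ℂ)`. -/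
def permGL {n : ℕ} (w : Equiv.Perm (Fin n)) : GL (Fin n) ℂ where
  val := permMat ℂ w
  inv := permMat ℂ w⁻¹
  val_inv := by rw [permMat_mul_permMat, mul_inv_cancel, permMat_one]
  inv_val := by rw [permMat_mul_permMat, inv_mul_cancel, permMat_one]

/-- The flag `e_w`. -/
def flagPt {n : ℕ} (w : Equiv.Perm (Fin n)) : Flags n := (permGL w : Flags n)

/-- The Schubert variety `X_w`, the closure of the `B`-orbit of `e_w`. -/
def schubert {n : ℕ} (w : Equiv.Perm (Fin n)) : Set (Flags n) :=
  closure {x | ∃ b ∈ borel n, x = b • flagPt w}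

/-- The index set of the coordinates on the standard charts: pairs `(i, j)` with `j < i`. -/
abbrev Lo (n : ℕ) : Type := {p : Fin n × Fin n // p.2 < p.1}

/-- The lower unitriangular matrix with entries `z`. -/
def lowerUni {n : ℕ} {R : Type*} [Zero R] [One R] (z : Lo n → R) : Matrix (Fin n) (Fin n) R :=
  Matrix.of fun i j => if h : j < i then z ⟨(i, j), h⟩ else if i = j then 1 else 0

theorem det_lowerUni {n : ℕ} {R : Type*} [CommRing R] (z : Lo n → R) :
    (lowerUni z).det = 1 := by
  rw [Matrix.det_of_isLowerTriangular]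
  · apply Finset.prod_eq_one
    intro i _
    simp [lowerUni]
  · intro i j hij
    have hij' : i < j := hij
    simp [lowerUni, not_lt_of_gt hij', ne_of_lt hij']

/-- The lower unitriangular matrix with entries `z`, as an element of `GL_n(ℂ)`. -/
noncomputable def lowerGL {n : ℕ} (z : Lo n → ℂ) : GL (Fin n) ℂ :=
  Matrix.GeneralLinearGroup.mkOfDetNeZero (lowerUni z) (by rw [det_lowerUni]; exact one_ne_zero)

/-- The standard affine chart `z ↦ w U(z) B` of the flag variety, centred at `e_w` (its image is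
the open neighbourhood `w U⁻ B / B` of `e_w`, where `U⁻` is the group of lower unitriangular
matrices). -/
noncomputable def chart {n : ℕ} (w : Equiv.Perm (Fin n)) (z : Lo n → ℂ) : Flags n :=
  ((permGL w * lowerGL z : GL (Fin n) ℂ) : Flags n)

theorem chart_zero {n : ℕ} (w : Equiv.Perm (Fin n)) : chart w 0 = flagPt w := by
  have : (lowerGL (0 : Lo n → ℂ)) = 1 := by
    ext i j
    change lowerUni (0 : Lo n → ℂ) i j = (1 : Matrix (Fin n) (Fin n) ℂ) i j
    by_cases h : j < i
    · simp [lowerUni, h, Matrix.one_apply_ne (ne_of_gt h)]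
    · simp [lowerUni, h, Matrix.one_apply]
  rw [chart, this, mul_one, flagPt]

/-! ### Local rings -/

/-- The closed subvariety `X_w ∩ (u U⁻ B / B)` of the chart `ℂ^(n(n-1)/2)` centred at `e_u`. -/
def chartSet {n : ℕ} (w u : Equiv.Perm (Fin n)) : Set (Lo n → ℂ) :=
  {z | chart u z ∈ schubert w}

theorem zero_mem_chartSet {n : ℕ} {w u : Equiv.Perm (Fin n)} (hu : flagPt u ∈ schubert w) :
    (0 : Lo n → ℂ) ∈ chartSet w u := by
  change chart u 0 ∈ schubert w
  rwa [chart_zero]

/-- The coordinate ring `ℂ[S] = ℂ[z] / I(S)` of the affine variety `S ⊆ ℂ^σ`. -/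
def CoordRing {σ : Type*} (S : Set (σ → ℂ)) : Type _ := MvPolynomial σ ℂ ⧸ vanishingIdeal ℂ S

noncomputable instance {σ : Type*} (S : Set (σ → ℂ)) : CommRing (CoordRing S) :=
  inferInstanceAs (CommRing (MvPolynomial σ ℂ ⧸ vanishingIdeal ℂ S))

/-- The quotient map `ℂ[z] → ℂ[S]`. -/
noncomputable def CoordRing.mk {σ : Type*} (S : Set (σ → ℂ)) : MvPolynomial σ ℂ →+* CoordRing S :=
  Ideal.Quotient.mk (vanishingIdeal ℂ S)

/-- Evaluation at a point `x` of `S`, on the coordinate ring `ℂ[S]`. -/
noncomputable def evalAt {σ : Type*} (S : Set (σ → ℂ)) (x : σ → ℂ) (hx : x ∈ S) :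
    CoordRing S →+* ℂ :=
  Ideal.Quotient.lift (vanishingIdeal ℂ S) (MvPolynomial.aeval x : MvPolynomial σ ℂ →ₐ[ℂ] ℂ)
    (fun _ hp => hp x hx)

theorem evalAt_mk {σ : Type*} (S : Set (σ → ℂ)) (x : σ → ℂ) (hx : x ∈ S) (g : MvPolynomial σ ℂ) :
    evalAt S x hx (CoordRing.mk S g) = aeval x g := rfl

instance ker_evalAt_isMaximal {σ : Type*} (S : Set (σ → ℂ)) (x : σ → ℂ) (hx : x ∈ S) :
    (RingHom.ker (evalAt S x hx)).IsMaximal :=
  RingHom.ker_isMaximal_of_surjective _ (fun z => ⟨CoordRing.mk S (C z), by simp [evalAt_mk]⟩)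

/-- The local ring at the point `x ∈ S` of the affine variety `S ⊆ ℂ^σ`: the localisation of the
coordinate ring `ℂ[S]` at the maximal ideal of functions vanishing at `x`. -/
abbrev LocalRingAt {σ : Type*} (S : Set (σ → ℂ)) (x : σ → ℂ) (hx : x ∈ S) : Type _ :=
  Localization.AtPrime (RingHom.ker (evalAt S x hx))

/-- The local ring `𝒪_{X_w, e_u}` of the Schubert variety `X_w` at the point `e_u ∈ X_w`,
computed in the standard chart centred at `e_u`. -/
abbrev schubertLocalRing {n : ℕ} (w u : Equiv.Perm (Fin n)) (hu : flagPt u ∈ schubert w) : Type :=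
  LocalRingAt (chartSet w u) 0 (zero_mem_chartSet hu)

/-! ### The set `𝓜₃` and pattern containment -/

/-- `mult_{e_u}(X_w) = m`. -/
def SchubertMult {n : ℕ} (w u : Equiv.Perm (Fin n)) (hu : flagPt u ∈ schubert w) (m : ℚ) : Prop :=
  HasMultiplicity (schubertLocalRing w u hu) m

/-- `w ∈ 𝓜₃`: the Schubert variety `X_w` has a point `e_u` of multiplicity at least `3`. -/
def InM3 {n : ℕ} (w : Equiv.Perm (Fin n)) : Prop :=
  ∃ (u : Equiv.Perm (Fin n)) (hu : flagPt u ∈ schubert w) (m : ℚ), SchubertMult w u hu m ∧ 3 ≤ m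

/-- Classical pattern containment: `w` contains `p`. -/
def ContainsPattern {n k : ℕ} (w : Equiv.Perm (Fin n)) (p : Equiv.Perm (Fin k)) : Prop :=
  ∃ f : Fin k → Fin n, StrictMono f ∧ ∀ a b : Fin k, p a < p b ↔ w (f a) < w (f b)

/-- The permutation `354612` (one-line notation on `{1, …, 6}`), with positions and values shifted
to `{0, …, 5}`. -/
def perm354612 : Equiv.Perm (Fin 6) :=
  ⟨![2, 4, 3, 5, 0, 1], ![4, 5, 0, 2, 1, 3], by decide, by decide⟩

/-- The permutation `4657312` (one-line notation on `{1, …, 7}`), with positions and values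
shifted to `{0, …, 6}`. -/
def perm4657312 : Equiv.Perm (Fin 7) :=
  ⟨![3, 5, 4, 6, 2, 0, 1], ![5, 6, 4, 0, 2, 1, 3], by decide, by decide⟩

end Pool.Agent.Hhelper10.Schub
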