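import Pool.Agent.Hhelper10.Schub.Hyper

/-!
# Krull dimension of hypersurface singularities, and their multiplicity
-/

namespace Pool.Agent.Hhelper10.Schub

open MvPolynomial IsLocalRing

variable {K : Type*} [Field K] {σ : Type*}

theorem idealOfVars_eq_ker : idealOfVars σ K = RingHom.ker (constantCoeff (σ := σ) (R := K)) := by
  ext p
  rw [RingHom.mem_ker, ← pow_one (idealOfVars σ K), mem_pow_idealOfVars_iff']
  constructor
  · intro h
    exact h 0 (by simp)
  · intro h x hx
    have : x = 0 := by
      rw [← Finsupp.degree_eq_zero_iff]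
      omega
    subst this
    exact h

instance : (idealOfVars σ K).IsMaximal := by
  rw [idealOfVars_eq_ker]
  exact RingHom.ker_isMaximal_of_surjective _ (fun z => ⟨C z, by simp⟩)

/-- Translation by `x`. -/
noncomputable def translate (x : σ → K) : MvPolynomial σ K ≃ₐ[K] MvPolynomial σ K :=
  AlgEquiv.ofAlgHom (aeval fun i => X i + C (x i)) (aeval fun i => X i - C (x i))
    (by ext i; simp) (by ext i; simp)

theorem height_vanishingIdeal_singleton (x : σ → K) :
    (vanishingIdeal K {x} : Ideal (MvPolynomial σ K)).height = (idealOfVars σ K).height := by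
  have : (vanishingIdeal K {x} : Ideal (MvPolynomial σ K)) =
      (idealOfVars σ K).comap (translate x).toRingEquiv := by
    ext p
    rw [Ideal.mem_comap, idealOfVars_eq_ker, RingHom.mem_ker, mem_vanishingIdeal_singleton_iff]
    have : aeval x p = constantCoeff (translate x p) := by
      change _ = ((RingHom.comp constantCoeff (translate x : MvPolynomial σ K →+* MvPolynomial σ K)) p)
      change ((aeval x : MvPolynomial σ K →ₐ[K] K) : MvPolynomial σ K →+* K) p = _
      congr 1
      ext i <;> simp [translate]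
    rw [this]
    rfl
  rw [this]
  exact RingEquiv.height_comap _ _

theorem height_idealOfVars [IsAlgClosed K] [Finite σ] :
    ((idealOfVars σ K).height : WithBot ℕ∞) = (Nat.card σ : WithBot ℕ∞) := by
  have hdim : ringKrullDim (MvPolynomial σ K) = (Nat.card σ : WithBot ℕ∞) := by
    rw [MvPolynomial.ringKrullDim_of_isNoetherianRing]
    simp
  apply le_antisymm
  · rw [← hdim]
    exact Ideal.height_le_ringKrullDim_of_ne_top Ideal.IsPrime.ne_top'
  · rw [← hdim, ringKrullDim_le_iff_isMaximal_height_le]
    intro m hm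
    obtain ⟨x, rfl⟩ := isMaximal_iff_eq_vanishingIdeal_singleton.1 hm
    rw [height_vanishingIdeal_singleton]

/-- If `A` is isomorphic to `K[z] / (f)` with `m` corresponding to the ideal of the origin and `f`
of order exactly `e` there, then `A_m` has multiplicity `e`. -/
theorem hasMultiplicity_of_iso {K : Type*} [Field K] [IsAlgClosed K] {τ : Type*} [Fintype τ]
    [DecidableEq τ] {A : Type*} [CommRing A] (m : Ideal A) [m.IsMaximal]
    (f : MvPolynomial τ K) (e : ℕ) (he : 1 ≤ e)
    (hf : f ∈ idealOfVars τ K ^ e) (hf' : f ∉ idealOfVars τ K ^ (e + 1))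
    (I : Ideal (MvPolynomial τ K)) (hI : I = Ideal.span {f})
    (ψ : A ≃+* MvPolynomial τ K ⧸ I)
    (hψ : (idealOfVars τ K).map (Ideal.Quotient.mk I) = m.map (ψ : A →+* MvPolynomial τ K ⧸ I)) :
    HasMultiplicity (Localization.AtPrime m) e := by
  have hfm : f ∈ idealOfVars τ K := by
    have := Ideal.pow_le_pow_right he hf
    rwa [pow_one] at this
  have hf0 : f ≠ 0 := by
    rintro rfl
    exact hf' (zero_mem _)
  have hne : Nonempty τ := by
    by_contra hne
    rw [not_nonempty_iff] at hne
    apply hf0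
    have : idealOfVars τ K = ⊥ := by
      rw [idealOfVars, Set.range_eq_empty, Ideal.span_empty]
    rw [this, Ideal.mem_bot] at hfm
    exact hfm
  obtain ⟨N, hN⟩ : ∃ N, Fintype.card τ = N + 1 :=
    ⟨Fintype.card τ - 1, by have := Fintype.card_pos (α := τ); omega⟩
  have hcomap : m = ((idealOfVars τ K).map (Ideal.Quotient.mk I)).comap (ψ : A →+* MvPolynomial τ K ⧸ I) := by
    rw [hψ]
    exact (Ideal.comap_map_of_bijective _ ψ.bijective).symm
  have hm'max : ((idealOfVars τ K).map (Ideal.Quotient.mk I)).IsMaximal := by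
    rw [hψ]
    exact Ideal.IsMaximal.map_bijective _ ψ.bijective ‹_›
  refine ⟨hyperPoly N e, N, ?_, ?_, ?_⟩
  · refine ⟨e, fun k hk => ⟨∑ i ∈ Finset.range e, (N + 1).multichoose (k - i), ?_, ?_⟩⟩
    · rw [length_localization]
      have e1 : (A ⧸ m ^ (k + 1)) ≃+* ((MvPolynomial τ K ⧸ I) ⧸
          (idealOfVars τ K ^ (k + 1)).map (Ideal.Quotient.mk I)) :=
        Ideal.quotientEquiv _ _ ψ (by
          rw [Ideal.map_pow, Ideal.map_pow, hψ])
      have e2 := DoubleQuot.quotQuotEquivQuotSup I (idealOfVars τ K ^ (k + 1))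
      rw [length_self_eq_of_equiv (e1.trans e2), ← length_quotient_eq_self]
      obtain ⟨j, hj⟩ : ∃ j, k + 1 = e + j := ⟨k + 1 - e, by omega⟩
      have h1 := length_hypersurface hf hf' j
      rw [hj, hI]
      rw [lowCard_add, hN, Nat.cast_add] at h1
      have h2 := ENat.add_right_injective_of_ne_top (n := ((lowCard (N + 1) j : ℕ) : ℕ∞))
        (by simp) h1
      rw [← h2]
      congr 1
      apply Finset.sum_congr rfl
      intro i _
      congr 1
      omega
    · rw [eval_hyperPoly _ _ _ (by omega)]
  · rw [IsLocalization.AtPrime.ringKrullDim_eq_height m (Localization.AtPrime m), hcomap]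
    have h0 : (((idealOfVars τ K).map (Ideal.Quotient.mk I)).comap (ψ : A →+* MvPolynomial τ K ⧸ I)).height =
      ((idealOfVars τ K).map (Ideal.Quotient.mk I)).height := RingEquiv.height_comap ψ _
    rw [h0]
    have h1 := height_idealOfVars (K := K) (σ := τ)
    rw [Nat.card_eq_fintype_card, hN] at h1
    have h2 : (idealOfVars τ K).height ≤
        ((idealOfVars τ K).map (Ideal.Quotient.mk I)).height + 1 := by
      rw [hI]
      exact Ideal.height_le_height_add_one_of_mem hfm
    have h3 : (((idealOfVars τ K).map (Ideal.Quotient.mk I)).height : WithBot ℕ∞) ≤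
        ringKrullDim (MvPolynomial τ K ⧸ I) :=
      Ideal.height_le_ringKrullDim_of_ne_top hm'max.ne_top
    have h4 : ringKrullDim (MvPolynomial τ K ⧸ I) + 1 ≤ ringKrullDim (MvPolynomial τ K) := by
      rw [hI]
      exact ringKrullDim_quotient_succ_le_of_nonZeroDivisor (mem_nonZeroDivisors_of_ne_zero hf0)
    have h5 : ringKrullDim (MvPolynomial τ K) = ((N + 1 : ℕ) : WithBot ℕ∞) := by
      rw [MvPolynomial.ringKrullDim_of_isNoetherianRing]
      simp [hN]
    rw [h5] at h4
    have h6 : ((((idealOfVars τ K).map (Ideal.Quotient.mk I)).height + 1 : ℕ∞) : WithBot ℕ∞) ≤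
        ((N + 1 : ℕ) : WithBot ℕ∞) := by
      refine le_trans ?_ h4
      rw [WithBot.coe_add, WithBot.coe_one]
      gcongr
    generalize ((idealOfVars τ K).map (Ideal.Quotient.mk I)).height = a at *
    have h7 : a + 1 ≤ ((N + 1 : ℕ) : ℕ∞) := by
      exact_mod_cast h6
    have h8 : (idealOfVars τ K).height = ((N + 1 : ℕ) : ℕ∞) := by
      exact_mod_cast h1
    rw [h8] at h2
    have h9 : a + 1 = ((N + 1 : ℕ) : ℕ∞) := le_antisymm h7 h2
    rw [Nat.cast_add, Nat.cast_one] at h9
    have h10 : a = (N : ℕ∞) := ENat.add_left_injective_of_ne_top (n := 1) (by simp) h9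
    rw [h10]
    rfl
  · exact (coeff_hyperPoly N e).symm

end Pool.Agent.Hhelper10.Schub
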