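import Pool.Agent.Hhelper10.Schub.Orders

/-!
# Multiplicities of the two Schubert varieties
-/

namespace Pool.Agent.Hhelper10.Schub

open Matrix MvPolynomial

theorem single_apply_of_le {n : ℕ} {i j : Fin n} (hij : j < i) (a b : Fin n) (hab : a ≤ b) :
    (Matrix.single i j (1 : ℂ)) a b = 0 := by
  rw [Matrix.single_apply_of_ne]
  rintro ⟨rfl, rfl⟩
  exact absurd hij (not_lt_of_ge hab)

theorem single_mul_zero {n : ℕ} (i : Fin n) {j k : Fin n} (l : Fin n) (h : j ≠ k) :
    (Matrix.single i j (1 : ℂ)) * Matrix.single k l (1 : ℂ) = 0 :=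
  Matrix.single_mul_single_of_ne _ _ _ _ h _

theorem single_mul_same {n : ℕ} (i j l : Fin n) :
    (Matrix.single i j (1 : ℂ)) * Matrix.single j l (1 : ℂ) = Matrix.single i l 1 := by
  rw [Matrix.single_mul_single_same, mul_one]

/-- The combinatorics behind the bound for `w = 4657312`: either the linear term survives or some
quadratic term survives. -/
theorem combi7 (u : Equiv.Perm (Fin 7)) :
    (u 6, u.symm 0) ∉ Z7 ∨
      ∃ c : Fin 7, u.symm 0 < c ∧ c < 6 ∧ (u 6, c) ∉ Z7 ∧ (u c, u.symm 0) ∉ Z7 := by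
  by_cases hmem : (u 6, u.symm 0) ∈ Z7
  swap
  · exact Or.inl hmem
  right
  have hr : u (u.symm 0) = 0 := Equiv.apply_symm_apply _ _
  generalize u.symm 0 = r at *
  have hinj : ∀ i j : Fin 7, i ≠ j → u i ≠ u j := fun i j hij h => hij (u.injective h)
  have hr3 : r = 0 ∨ r = 1 ∨ r = 2 := by
    generalize u 6 = b at hmem
    clear hr
    revert b r
    decide
  have hZ6 : ∀ c : Fin 7, 3 ≤ c → (u 6, c) ∉ Z7 := by
    intro c hc
    generalize u 6 = b
    revert b c
    decide
  rcases hr3 with rfl | rfl | rfl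
  · -- `u 0 = 0`, `u 6 ≥ 4`; some `c ∈ {3, 4, 5}` has `u c ≤ 3`
    have h64 : 4 ≤ (u 6 : ℕ) := by
      generalize u 6 = b at hmem
      revert b
      decide
    have hc : ∃ c : Fin 7, 3 ≤ c ∧ c < 6 ∧ (u c : ℕ) ≤ 3 := by
      by_contra hcon
      push Not at hcon
      have a3 := hcon 3 (by decide) (by decide)
      have a4 := hcon 4 (by decide) (by decide)
      have a5 := hcon 5 (by decide) (by decide)
      have n34 := hinj 3 4 (by decide)
      have n35 := hinj 3 5 (by decide)
      have n36 := hinj 3 6 (by decide)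
      have n45 := hinj 4 5 (by decide)
      have n46 := hinj 4 6 (by decide)
      have n56 := hinj 5 6 (by decide)
      simp only [ne_eq, Fin.ext_iff] at n34 n35 n36 n45 n46 n56
      have b3 := (u 3).isLt
      have b4 := (u 4).isLt
      have b5 := (u 5).isLt
      have b6 := (u 6).isLt
      omega
    obtain ⟨c, hc3, hc6, hc⟩ := hc
    refine ⟨c, lt_of_lt_of_le (by decide) hc3, hc6, hZ6 c hc3, ?_⟩
    generalize u c = b at hc
    revert b
    decide
  · have h66 : u 6 = 6 := by
      generalize u 6 = b at hmem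
      revert b
      decide
    refine ⟨3, by decide, by decide, hZ6 3 (by decide), ?_⟩
    have h3 := hinj 3 6 (by decide)
    rw [h66] at h3
    generalize u 3 = b at h3
    revert b
    decide
  · have h66 : u 6 = 6 := by
      generalize u 6 = b at hmem
      revert b
      decide
    refine ⟨3, by decide, by decide, hZ6 3 (by decide), ?_⟩
    have h3 := hinj 3 6 (by decide)
    rw [h66] at h3
    generalize u 3 = b at h3
    revert b
    decide

theorem perm_ne_of_cond {m : ℕ} {Z : Finset (Fin (m + 1) × Fin (m + 1))}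
    {u : Equiv.Perm (Fin (m + 1))} (hu : Cond Z (permMat ℂ u)) :
    (∀ p ∈ Z, u p.2 ≠ p.1) ∧ u (Fin.last m) ≠ 0 := by
  refine ⟨fun p hp h => ?_, (inCell_permMat (K := ℂ) u).adjugate_last.1 hu.2⟩
  have h1 := hu.1 p hp
  simp only [permMat, Matrix.of_apply] at h1
  rw [if_pos h.symm] at h1
  exact one_ne_zero h1

/-- All multiplicities of `X_{4657312}` are at most `2`. -/
theorem mult_w7_le (u : Equiv.Perm (Fin 7)) (hu : flagPt u ∈ schubert perm4657312) :
    ∃ m : ℚ, SchubertMult perm4657312 u hu m ∧ m ≤ 2 := by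
  have hC : Cond Z7 (permMat ℂ u) := cond_permMat cellIdeal_w7 hu
  obtain ⟨-, h6⟩ := perm_ne_of_cond hC
  have hI := vanishingIdeal_chartSet_eq (w := perm4657312) cellIdeal_w7 hC
  have hlow := mem_idealOfVars_of_cond hC
  have hr6 : u.symm 0 ≠ 6 := by
    intro h
    apply h6
    change u 6 = 0
    rw [← h, Equiv.apply_symm_apply]
  have hrlt : u.symm 0 < 6 := lt_of_le_of_ne (Fin.le_last _) hr6
  have hnot : proj (killed Z7 u) (restr u (adjEntry 6)) ∉
        idealOfVars {s : Lo 7 // s ∉ killed Z7 u} ℂ ^ 2 ∨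
      proj (killed Z7 u) (restr u (adjEntry 6)) ∉
        idealOfVars {s : Lo 7 // s ∉ killed Z7 u} ℂ ^ 3 := by
    rcases combi7 u with h | ⟨c, hc1, hc2, hc3, hc4⟩
    · left
      have hz : (Matrix.single 6 (u.symm 0) (1 : ℂ)) * Matrix.single 6 (u.symm 0) 1 =
          (0 : Matrix (Fin 7) (Fin 7) ℂ) := single_mul_zero _ _ hr6
      apply notMem_of_matrix (Matrix.single 6 (u.symm 0) (1 : ℂ)) (e := 1) (a := -1)
      · exact fun a b hab => single_apply_of_le hrlt a b hab
      · intro s hs
        rw [Matrix.single_apply_of_ne]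
        rintro ⟨h1, h2⟩
        apply h
        have h3 : (u s.1.1, s.1.2) ∈ Z7 := by simpa [killed] using hs
        rwa [← h1, ← h2] at h3
      · rw [hz, zero_mul]
      · exact hr6.symm
      · simp
      · rw [hz, zero_mul]
        change - (Polynomial.C (Matrix.single 6 (u.symm 0) (1 : ℂ) 6 (u.symm 0)) * Polynomial.X) +
          _ - _ = _
        rw [Matrix.single_apply_same]
        simp
    · right
      have hc6 : c ≠ 6 := ne_of_lt hc2
      have hcr : c ≠ u.symm 0 := ne_of_gt hc1
      set A : Matrix (Fin 7) (Fin 7) ℂ := Matrix.single 6 c 1 + Matrix.single c (u.symm 0) 1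
        with hA
      have hz : A * A = Matrix.single 6 (u.symm 0) 1 := by
        rw [hA, add_mul, mul_add, mul_add, single_mul_zero _ _ hc6, single_mul_same,
          single_mul_zero _ _ hr6, single_mul_zero _ _ hcr.symm]
        simp
      have hz3 : A * A * A = 0 := by
        rw [hz, hA, mul_add, single_mul_zero _ _ hr6, single_mul_zero _ _ hcr.symm, add_zero]
      apply notMem_of_matrix A (e := 2) (a := 1)
      · intro a b hab
        rw [hA, Matrix.add_apply, single_apply_of_le hc2 a b hab, single_apply_of_le hc1 a b hab,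
          add_zero]
      · intro s hs
        have h3 : (u s.1.1, s.1.2) ∈ Z7 := by simpa [killed] using hs
        rw [hA, Matrix.add_apply, Matrix.single_apply_of_ne, Matrix.single_apply_of_ne, add_zero]
        · rintro ⟨h1, h2⟩
          apply hc4
          rwa [← h1, ← h2] at h3
        · rintro ⟨h1, h2⟩
          apply hc3
          rwa [← h1, ← h2] at h3
      · rw [← mul_assoc, hz3, zero_mul]
      · exact hr6.symm
      · exact one_ne_zero
      · rw [hz3, hz]
        have h1 : A (Fin.last 6) (u.symm 0) = 0 := by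
          rw [hA, Matrix.add_apply, Matrix.single_apply_of_ne, Matrix.single_apply_of_ne, add_zero]
          · rintro ⟨h1, -⟩
            exact hc6 h1
          · rintro ⟨-, h2⟩
            exact hcr h2
        rw [h1]
        change _ + Polynomial.C (Matrix.single 6 (u.symm 0) (1 : ℂ) 6 (u.symm 0)) * _ - _ = _
        rw [Matrix.single_apply_same]
        simp
  by_cases h2 : proj (killed Z7 u) (restr u (adjEntry 6)) ∈
        idealOfVars {s : Lo 7 // s ∉ killed Z7 u} ℂ ^ 2
  · have h3 : proj (killed Z7 u) (restr u (adjEntry 6)) ∉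
        idealOfVars {s : Lo 7 // s ∉ killed Z7 u} ℂ ^ 3 := by
      rcases hnot with h | h
      · exact absurd h2 h
      · exact h
    exact ⟨((2 : ℕ) : ℚ), hasMultiplicity_localRingAt (chartSet perm4657312 u) (zero_mem_chartSet hu)
      (killed Z7 u) _ hI 2 (by norm_num) h2 h3, by norm_num⟩
  · exact ⟨((1 : ℕ) : ℚ), hasMultiplicity_localRingAt (chartSet perm4657312 u) (zero_mem_chartSet hu)
      (killed Z7 u) _ hI 1 le_rfl (by rwa [pow_one]) h2, by norm_num⟩

end Pool.Agent.Hhelper10.Schub
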