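import Pool.Agent.Hhelper10.Schub.Final

/-!
# The Schubert variety `X_{354612}` has multiplicity `3` at `e_id`
-/

namespace Pool.Agent.Hhelper10.Schub

open Matrix MvPolynomial

/-- A nilpotent matrix. -/
def A6 : Matrix (Fin 6) (Fin 6) ℂ :=
  !![0, 0, 0, 0, 0, 0;
     1, 0, 0, 0, 0, 0;
     -1, 0, 0, 0, 0, 0;
     0, 1, 1, 0, 0, 0;
     0, 1, 0, 0, 0, 0;
     0, 0, 0, 1, 0, 0]

theorem A6_sq : A6 * A6 =
    !![0, 0, 0, 0, 0, 0;
     0, 0, 0, 0, 0, 0;
     0, 0, 0, 0, 0, 0;
     0, 0, 0, 0, 0, 0;
     1, 0, 0, 0, 0, 0;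
     0, 1, 1, 0, 0, 0] := by
  ext1 i j
  fin_cases i <;> fin_cases j <;> simp [A6, Matrix.mul_apply, Fin.sum_univ_succ]

theorem A6_cube : A6 * A6 * A6 = 0 := by
  rw [A6_sq]
  ext1 i j
  fin_cases i <;> fin_cases j <;> simp [A6, Matrix.mul_apply, Fin.sum_univ_succ]

theorem one_add_mul (s : ℂ) : (1 + s • A6) * (1 - s • A6 + s ^ 2 • (A6 * A6)) = 1 := by
  have : (1 + s • A6) * (1 - s • A6 + s ^ 2 • (A6 * A6)) = 1 + s ^ 3 • (A6 * A6 * A6) := by
    simp only [add_mul, mul_add, mul_sub, one_mul, mul_one, smul_mul_assoc, mul_smul_comm]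
    rw [← mul_assoc]
    module
  rw [this, A6_cube, smul_zero, add_zero]

/-- A curve in `GL_6` through the identity whose other points lie in the cell of `354612`. -/
noncomputable def curve6 (s : ℂ) : GL (Fin 6) ℂ where
  val := 1 + s • A6
  inv := 1 - s • A6 + s ^ 2 • (A6 * A6)
  val_inv := one_add_mul s
  inv_val := mul_eq_one_comm.1 (one_add_mul s)

theorem curve6_continuous : Continuous curve6 := by
  rw [Units.continuous_iff]
  constructor
  · exact (continuous_const.add (continuous_id.smul continuous_const))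
  · exact (continuous_const.sub (continuous_id.smul continuous_const)).add
      ((continuous_id.pow 2).smul continuous_const)

theorem curve6_inCell (s : ℂ) (hs : s ≠ 0) :
    InCell perm354612 (curve6 s : Matrix (Fin 6) (Fin 6) ℂ) := by
  have hval : (curve6 s : Matrix (Fin 6) (Fin 6) ℂ) = 1 + s • A6 := rfl
  have hlow : ∀ i j, i ≤ j → (s • A6) i j = 0 := by
    intro i j
    fin_cases i <;> fin_cases j <;> simp [A6]
  have hL := lowerUni_eq_one_add (s • A6) hlow
  have hdet : (1 + s • A6).det = 1 := by rw [← hL, det_lowerUni]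
  have hadj : (1 + s • A6).adjugate = 1 - s • A6 + s ^ 2 • (A6 * A6) := by
    rw [← hL]
    apply adjugate_eq_of_mul_eq_one
    rw [hL]
    exact one_add_mul s
  rw [hval]
  apply inCell_of_gen6
  · refine ⟨fun p hp => ?_, ?_⟩
    · fin_cases hp <;> simp [A6]
    · rw [hadj, A6_sq]
      change (1 - s • A6 + s ^ 2 • _) 5 0 = 0
      simp [A6]
  · rw [aeval_gen6, hdet]
    have h1 : (1 + s • A6) 2 0 = -s := by simp [A6]
    have h2 : (1 + s • A6) 4 1 = s := by simp [A6]
    have h3 : (1 + s • A6) 5 3 = s := by simp [A6]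
    have h4 : (1 + s • A6) 4 2 = 0 := by simp [A6]
    have h5 : (1 + s • A6) 3 2 = s := by simp [A6]
    rw [h1, h2, h3, h4, h5]
    simp [hs]

/-- `e_id ∈ X_{354612}`. -/
theorem one_mem_schubert_p6 : flagPt (1 : Equiv.Perm (Fin 6)) ∈ schubert perm354612 := by
  have h0 : (curve6 0 : GL (Fin 6) ℂ) = permGL 1 := by
    apply Units.ext
    change (1 + (0 : ℂ) • A6) = permMat ℂ 1
    rw [zero_smul, add_zero, permMat_one]
  have hcont : Continuous fun s => (curve6 s : Flags 6) :=
    continuous_quotient_mk'.comp curve6_continuous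
  have h1 : Filter.Tendsto (fun s => (curve6 s : Flags 6)) (nhdsWithin 0 {0}ᶜ)
      (nhds (flagPt 1)) := by
    have h2 := (hcont.tendsto 0).mono_left (nhdsWithin_le_nhds (s := {0}ᶜ))
    rw [h0] at h2
    exact h2
  apply mem_closure_of_tendsto h1
  filter_upwards [self_mem_nhdsWithin] with s hs
  exact mk_mem_orbit_iff.2 (curve6_inCell s hs)

/-- `X_{354612}` has multiplicity `3` at `e_id`. -/
theorem mult_p6 : SchubertMult perm354612 1 one_mem_schubert_p6 3 := by
  have hC : Cond Z6 (permMat ℂ 1) := cond_permMat cellIdeal_p6 one_mem_schubert_p6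
  have hI := vanishingIdeal_chartSet_eq (w := perm354612) cellIdeal_p6 hC
  set T := killed Z6 1 with hT
  set J := idealOfVars {s : Lo 6 // s ∉ T} ℂ with hJ
  have hmemT : ∀ s : Lo 6, s ∈ T ↔ (s.1.1, s.1.2) ∈ Z6 := by
    intro s
    simp [hT, killed]
  -- lower bound for the order
  have hin : proj T (restr 1 (adjEntry 5)) ∈ J ^ 3 := by
    rw [map_restr_adjEntry]
    apply Ideal.mul_mem_left
    change (lowerUni _).adjugate (Fin.last 5) 0 ∈ J ^ 3
    let A : Matrix (Fin 6) (Fin 6) (MvPolynomial {s : Lo 6 // s ∉ T} ℂ) :=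
      Matrix.of fun i j => if h : j < i then proj T (X ⟨(i, j), h⟩) else 0
    have hA0 : ∀ i j, i ≤ j → A i j = 0 := by
      intro i j hij
      simp [A, not_lt_of_ge hij]
    have hL : (lowerUni fun s => proj T (X s)) = 1 + A := by
      rw [← lowerUni_eq_one_add A hA0]
      congr 1
      funext s
      have := s.2
      simp [A, this]
    have hAJ : ∀ i j, A i j ∈ J := by
      intro i j
      by_cases h : j < i
      · simp only [A, Matrix.of_apply, dif_pos h]
        rw [proj, aeval_X]
        split_ifs with h'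
        · exact zero_mem _
        · exact Ideal.subset_span ⟨_, rfl⟩
      · simp only [A, Matrix.of_apply, dif_neg h]
        exact zero_mem _
    have hAZ : ∀ i j, (i, j) ∈ Z6 → A i j = 0 := by
      intro i j hij
      by_cases h : j < i
      · simp only [A, Matrix.of_apply, dif_pos h]
        rw [proj, aeval_X, dif_pos]
        rw [hmemT]
        exact hij
      · exact hA0 i j (not_lt.1 h)
    rw [hL]
    set N := (1 + A).adjugate with hN
    have hdet : (1 + A).det = 1 := by rw [← hL, det_lowerUni]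
    have hLN : (1 + A) * N = 1 := by rw [hN, Matrix.mul_adjugate, hdet, one_smul]
    have hN1 : N = 1 - A + A * A - A * (A * (A * N)) := by
      have e1 : N = 1 - A * N := by
        rw [add_mul, one_mul] at hLN
        rw [← hLN]
        abel
      have e2 : A * N = A * (1 - A * N) := congrArg (A * ·) e1
      calc N = 1 - A * N := e1
        _ = 1 - A * (1 - A * N) := by rw [← e2]
        _ = 1 - A * (1 - A * (1 - A * N)) := by rw [← e2, ← e2]
        _ = 1 - A + A * A - A * (A * (A * N)) := by noncomm_ring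
    have hmul : ∀ (k : ℕ) (B : Matrix (Fin 6) (Fin 6) (MvPolynomial {s : Lo 6 // s ∉ T} ℂ)),
        (∀ i j, B i j ∈ J ^ k) → ∀ i j, (A * B) i j ∈ J ^ (k + 1) := by
      intro k B hB i j
      rw [Matrix.mul_apply, pow_succ']
      exact Ideal.sum_mem _ fun l _ => Ideal.mul_mem_mul (hAJ i l) (hB l j)
    have h3 : ∀ i j, (A * (A * (A * N))) i j ∈ J ^ 3 :=
      hmul 2 _ (hmul 1 _ (hmul 0 N (by simp)))
    rw [hN1]
    have h50 : A 5 0 = 0 := hAZ 5 0 (by decide)
    have h2 : (A * A) 5 0 = 0 := by
      rw [Matrix.mul_apply]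
      apply Finset.sum_eq_zero
      intro k _
      have : (5, k) ∈ Z6 ∨ (k, 0) ∈ Z6 := by
        revert k
        decide
      rcases this with h | h
      · rw [hAZ 5 k h, zero_mul]
      · rw [hAZ k 0 h, mul_zero]
    change (1 - A + A * A - A * (A * (A * N))) 5 0 ∈ J ^ 3
    rw [Matrix.sub_apply, Matrix.add_apply, Matrix.sub_apply, h50, h2,
      Matrix.one_apply_ne (by decide)]
    simp only [sub_zero, add_zero, zero_sub]
    exact neg_mem (h3 5 0)
  -- upper bound for the order
  have hout : proj T (restr 1 (adjEntry 5)) ∉ J ^ 4 := by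
    set A : Matrix (Fin 6) (Fin 6) ℂ := Matrix.single 5 3 1 + Matrix.single 3 1 1 +
      Matrix.single 1 0 1 with hA
    have hA2 : A * A = Matrix.single 5 1 1 + Matrix.single 3 0 1 := by
      rw [hA]
      simp only [add_mul, mul_add, single_mul_same]
      rw [single_mul_zero 5 3 (show (3 : Fin 6) ≠ 5 by decide),
        single_mul_zero 5 0 (show (3 : Fin 6) ≠ 1 by decide),
        single_mul_zero 3 3 (show (1 : Fin 6) ≠ 5 by decide),
        single_mul_zero 3 1 (show (1 : Fin 6) ≠ 3 by decide),
        single_mul_zero 1 3 (show (0 : Fin 6) ≠ 5 by decide),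
        single_mul_zero 1 1 (show (0 : Fin 6) ≠ 3 by decide),
        single_mul_zero 1 0 (show (0 : Fin 6) ≠ 1 by decide)]
      abel
    have hA3 : A * A * A = Matrix.single 5 0 1 := by
      rw [hA2, hA]
      simp only [add_mul, mul_add, single_mul_same]
      rw [single_mul_zero 5 3 (show (1 : Fin 6) ≠ 5 by decide),
        single_mul_zero 5 1 (show (1 : Fin 6) ≠ 3 by decide),
        single_mul_zero 3 3 (show (0 : Fin 6) ≠ 5 by decide),
        single_mul_zero 3 1 (show (0 : Fin 6) ≠ 3 by decide),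
        single_mul_zero 3 0 (show (0 : Fin 6) ≠ 1 by decide)]
      abel
    have hA4 : A * A * (A * A) = 0 := by
      rw [← mul_assoc, hA3, hA]
      simp only [mul_add]
      rw [single_mul_zero 5 3 (show (0 : Fin 6) ≠ 5 by decide),
        single_mul_zero 5 1 (show (0 : Fin 6) ≠ 3 by decide),
        single_mul_zero 5 0 (show (0 : Fin 6) ≠ 1 by decide)]
      simp
    apply notMem_of_matrix A (e := 3) (a := -1)
    · intro a b hab
      rw [hA, Matrix.add_apply, Matrix.add_apply,
        single_apply_of_le (show (3 : Fin 6) < 5 by decide) a b hab,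
        single_apply_of_le (show (1 : Fin 6) < 3 by decide) a b hab,
        single_apply_of_le (show (0 : Fin 6) < 1 by decide) a b hab]
      simp
    · intro s hs
      rw [← hT, hmemT] at hs
      rw [hA, Matrix.add_apply, Matrix.add_apply, Matrix.single_apply_of_ne,
        Matrix.single_apply_of_ne, Matrix.single_apply_of_ne]
      · simp
      · rintro ⟨h1, h2⟩
        rw [← h1, ← h2] at hs
        exact absurd hs (by decide)
      · rintro ⟨h1, h2⟩
        rw [← h1, ← h2] at hs
        exact absurd hs (by decide)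
      · rintro ⟨h1, h2⟩
        rw [← h1, ← h2] at hs
        exact absurd hs (by decide)
    · exact hA4
    · decide
    · simp
    · rw [hA3, hA2]
      change -(Polynomial.C (A 5 0) * Polynomial.X) +
        Polynomial.C ((Matrix.single 5 1 (1 : ℂ) + Matrix.single 3 0 1 :
          Matrix (Fin 6) (Fin 6) ℂ) 5 0) * Polynomial.X ^ 2 -
        Polynomial.C ((Matrix.single 5 0 (1 : ℂ) : Matrix (Fin 6) (Fin 6) ℂ) 5 0) *
          Polynomial.X ^ 3 = _
      have h1 : A 5 0 = 0 := by
        rw [hA]
        simp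
      have h2 : (Matrix.single 5 1 (1 : ℂ) + Matrix.single 3 0 1 :
          Matrix (Fin 6) (Fin 6) ℂ) 5 0 = 0 := by
        simp
      rw [h1, h2, Matrix.single_apply_same]
      simp
  exact hasMultiplicity_localRingAt (chartSet perm354612 1) (zero_mem_chartSet one_mem_schubert_p6)
    T _ hI 3 (by norm_num) hin hout

theorem contains_w7_p6 : ContainsPattern perm4657312 perm354612 :=
  ⟨![0, 1, 2, 3, 5, 6], by decide, by decide⟩

end Pool.Agent.Hhelper10.Schub
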