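import Pool.Agent.Hhelper10.Schub.Defs

/-!
# Hilbert-Samuel functions of hypersurface singularities
-/

namespace Pool.Agent.Hhelper10.Schub

open MvPolynomial IsLocalRing

theorem IsHilbertSamuelPoly.unique {R : Type*} [CommRing R] [IsLocalRing R] {P Q : Polynomial ℚ}
    (hP : IsHilbertSamuelPoly R P) (hQ : IsHilbertSamuelPoly R Q) : P = Q := by
  obtain ⟨N, hN⟩ := hP
  obtain ⟨N', hN'⟩ := hQ
  apply Polynomial.eq_of_infinite_eval_eq
  apply Set.Infinite.mono (s := (fun k : ℕ => (k : ℚ)) '' (Set.Ici (max N N')))
  · rintro _ ⟨k, hk, rfl⟩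
    rw [Set.mem_Ici] at hk
    obtain ⟨l, h1, h2⟩ := hN k (le_trans (le_max_left _ _) hk)
    obtain ⟨l', h1', h2'⟩ := hN' k (le_trans (le_max_right _ _) hk)
    rw [h1, Nat.cast_inj] at h1'
    subst h1'
    change P.eval (k : ℚ) = Q.eval (k : ℚ)
    rw [← h2, ← h2']
  · apply Set.Infinite.image
    · intro a _ b _ h
      exact Nat.cast_injective h
    · exact Set.Ici_infinite _

theorem HasMultiplicity.unique {R : Type*} [CommRing R] [IsLocalRing R] {m m' : ℚ}
    (h : HasMultiplicity R m) (h' : HasMultiplicity R m') : m = m' := by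
  obtain ⟨P, d, h1, h2, h3⟩ := h
  obtain ⟨P', d', h1', h2', h3'⟩ := h'
  have hP := h1.unique h1'
  rw [h2] at h2'
  have hd : d = d' := by exact_mod_cast h2'
  subst hP hd
  rw [h3, h3']

/-! ### Lengths -/

theorem length_self_eq_of_equiv {Q Q' : Type*} [CommRing Q] [CommRing Q'] (e : Q ≃+* Q') :
    Module.length Q Q = Module.length Q' Q' := by
  let _ : Algebra Q Q' := e.toRingHom.toAlgebra
  rw [← Module.length_eq_of_surjective (R := Q') (S := Q) (M := Q') e.surjective]
  refine LinearEquiv.length_eq
    { toFun := e, invFun := e.symm, map_add' := fun x y => map_add e x y,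
      map_smul' := fun x y => ?_, left_inv := e.left_inv, right_inv := e.right_inv }
  simp only [smul_eq_mul, map_mul, RingHom.id_apply]
  rfl

theorem length_quotient_eq_self {A : Type*} [CommRing A] (I : Ideal A) :
    Module.length A (A ⧸ I) = Module.length (A ⧸ I) (A ⧸ I) :=
  Module.length_eq_of_surjective Ideal.Quotient.mk_surjective

theorem length_localization {A : Type*} [CommRing A] (m : Ideal A) [m.IsMaximal] (k : ℕ) :
    Module.length (Localization.AtPrime m)
      (Localization.AtPrime m ⧸ (maximalIdeal (Localization.AtPrime m)) ^ k) =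
    Module.length (A ⧸ m ^ k) (A ⧸ m ^ k) := by
  rw [length_quotient_eq_self]
  exact length_self_eq_of_equiv
    (IsLocalization.AtPrime.equivQuotMaximalIdealPow m (Localization.AtPrime m) k).toRingEquiv.symm

/-- If the residue field of `A` at `m` is the base field, then the length of a module killed by a
power of `m` is its dimension. -/
theorem length_eq_base {K A : Type*} [Field K] [CommRing A] [Algebra K A] (m : Ideal A)
    (hm : Function.Surjective (algebraMap K (A ⧸ m))) (j : ℕ) :
    ∀ (M : Type _) [AddCommGroup M] [Module A M] [Module K M] [IsScalarTower K A M],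
      m ^ j • (⊤ : Submodule A M) = ⊥ → Module.length A M = Module.length K M := by
  induction j with
  | zero =>
    intro M _ _ _ _ h
    simp only [pow_zero, Ideal.one_eq_top, Submodule.top_smul] at h
    have : Subsingleton M := by
      rw [← Submodule.subsingleton_iff A]
      exact subsingleton_of_bot_eq_top h.symm
    rw [Module.length_eq_zero, Module.length_eq_zero]
  | succ j ih =>
    intro M _ _ _ _ h
    set N : Submodule A M := m • ⊤ with hN
    have h1 := Module.length_eq_add_of_exact (R := A) N.subtype N.mkQ N.injective_subtype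
      N.mkQ_surjective (LinearMap.exact_subtype_mkQ N)
    have h2 := Module.length_eq_add_of_exact (R := K) (N.subtype.restrictScalars K)
      (N.mkQ.restrictScalars K) N.injective_subtype
      N.mkQ_surjective (LinearMap.exact_subtype_mkQ N)
    rw [h1, h2]
    congr 1
    · apply ih
      have : Submodule.map N.subtype (m ^ j • (⊤ : Submodule A N)) = ⊥ := by
        rw [Submodule.map_smul'', Submodule.map_top, Submodule.range_subtype, hN,
          ← Submodule.mul_smul, ← pow_succ, h]
      exact Submodule.map_injective_of_injective N.injective_subtype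
        (by rw [this, Submodule.map_bot])
    · rw [Module.length_eq_of_surjective (S := A) (R := A ⧸ m) Ideal.Quotient.mk_surjective]
      have : IsScalarTower K (A ⧸ m) (M ⧸ N) := by
        constructor
        intro x y z
        obtain ⟨y, rfl⟩ := Ideal.Quotient.mk_surjective y
        have e1 : x • (Ideal.Quotient.mk m y) = Ideal.Quotient.mk m (x • y) := rfl
        rw [e1]
        obtain ⟨z, rfl⟩ := Submodule.mkQ_surjective _ z
        have e2 : ∀ a : A, (Ideal.Quotient.mk m a) • (N.mkQ z) = N.mkQ (a • z) := fun a => rfl
        rw [e2, e2, smul_assoc]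
        rfl
      rw [Module.length_eq_of_surjective (S := K) (R := A ⧸ m) hm]

end Pool.Agent.Hhelper10.Schub
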