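import Pool.Agent.Hhelper10.Schub.Hilbert

/-!
# Multiplicity of a hypersurface singularity
-/

namespace Pool.Agent.Hhelper10.Schub

open MvPolynomial IsLocalRing

variable {K : Type*} [Field K] {σ : Type*} [Fintype σ] [DecidableEq σ]

/-- Number of monomials of degree `< j` in `N` variables. -/
def lowCard (N j : ℕ) : ℕ := ∑ i ∈ Finset.range j, N.multichoose i

/-- The finset of exponents of degree `< j`. -/
def lowSet (σ : Type*) [Fintype σ] [DecidableEq σ] (j : ℕ) : Finset (σ →₀ ℕ) :=
  (Finset.range j).biUnion fun i => Finset.finsuppAntidiag Finset.univ i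

theorem mem_lowSet (j : ℕ) (x : σ →₀ ℕ) : x ∈ lowSet σ j ↔ x.degree < j := by
  simp only [lowSet, Finset.mem_biUnion, Finset.mem_range, Finset.mem_finsuppAntidiag,
    Finset.subset_univ, and_true]
  constructor
  · rintro ⟨i, hi, h⟩
    rw [Finsupp.degree_eq_sum, h]
    exact hi
  · intro h
    exact ⟨_, h, (Finsupp.degree_eq_sum x).symm⟩

theorem card_lowSet (j : ℕ) : (lowSet σ j).card = lowCard (Fintype.card σ) j := by
  rw [lowSet, Finset.card_biUnion]
  · simp [lowCard, Finset.card_finsuppAntidiag_nat_eq_multichoose]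
  · intro i _ i' _ h
    change Disjoint _ _
    rw [Finset.disjoint_left]
    intro x hx hx'
    rw [Finset.mem_finsuppAntidiag] at hx hx'
    exact h (hx.1.symm.trans hx'.1)

/-- Coefficients of degree `< j`. -/
noncomputable def lowCoeff (K : Type*) [Field K] (σ : Type*) [Fintype σ] [DecidableEq σ] (j : ℕ) :
    MvPolynomial σ K →ₗ[K] (lowSet σ j → K) :=
  LinearMap.pi fun x => MvPolynomial.lcoeff K x.1

theorem ker_lowCoeff (j : ℕ) :
    LinearMap.ker (lowCoeff K σ j) = (idealOfVars σ K ^ j).restrictScalars K := by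
  ext p
  rw [LinearMap.mem_ker, Submodule.restrictScalars_mem, mem_pow_idealOfVars_iff']
  constructor
  · intro h x hx
    exact congrFun h ⟨x, (mem_lowSet j x).2 hx⟩
  · intro h
    ext ⟨x, hx⟩
    exact h x ((mem_lowSet j x).1 hx)

theorem lowCoeff_surjective (j : ℕ) : Function.Surjective (lowCoeff K σ j) := by
  intro g
  refine ⟨∑ x : lowSet σ j, monomial x.1 (g x), ?_⟩
  ext y
  change MvPolynomial.coeff y.1 _ = _
  rw [MvPolynomial.coeff_sum]
  rw [Finset.sum_eq_single y]
  · simp
  · intro b _ hb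
    rw [MvPolynomial.coeff_monomial, if_neg]
    intro h
    exact hb (Subtype.ext h)
  · simp

theorem length_quot_pow (j : ℕ) :
    Module.length K (MvPolynomial σ K ⧸ idealOfVars σ K ^ j) =
      (lowCard (Fintype.card σ) j : ℕ) := by
  have e1 := (lowCoeff K σ j).quotKerEquivOfSurjective (lowCoeff_surjective j)
  have e2 : (MvPolynomial σ K ⧸ LinearMap.ker (lowCoeff K σ j)) ≃ₗ[K]
      (MvPolynomial σ K ⧸ (idealOfVars σ K ^ j).restrictScalars K) :=
    Submodule.quotEquivOfEq _ _ (ker_lowCoeff j)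
  have e3 : (MvPolynomial σ K ⧸ (idealOfVars σ K ^ j).restrictScalars K) ≃ₗ[K]
      (MvPolynomial σ K ⧸ idealOfVars σ K ^ j) :=
    Submodule.Quotient.restrictScalarsEquiv K _
  rw [LinearEquiv.length_eq (e3.symm.trans (e2.symm.trans e1)), Module.length_pi,
    Module.length_eq_finrank]
  simp [card_lowSet]

omit [Fintype σ] in
theorem surj_base : Function.Surjective
    (algebraMap K (MvPolynomial σ K ⧸ idealOfVars σ K)) := by
  intro y
  obtain ⟨p, rfl⟩ := Ideal.Quotient.mk_surjective y
  refine ⟨MvPolynomial.coeff 0 p, ?_⟩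
  rw [IsScalarTower.algebraMap_apply K (MvPolynomial σ K) (MvPolynomial σ K ⧸ idealOfVars σ K)]
  change Ideal.Quotient.mk _ _ = _
  rw [Ideal.Quotient.eq, ← pow_one (idealOfVars σ K), mem_pow_idealOfVars_iff']
  intro x hx
  have : x = 0 := by
    rw [← Finsupp.degree_eq_zero_iff]
    omega
  subst this
  simp [MvPolynomial.algebraMap_eq]

theorem smul_top_quot {A : Type*} [CommRing A] (I J : Ideal A) (h : J ≤ I) :
    J • (⊤ : Submodule A (A ⧸ I)) = ⊥ := by
  rw [eq_bot_iff, Submodule.smul_le]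
  intro r hr n _
  obtain ⟨n, rfl⟩ := Ideal.Quotient.mk_surjective n
  rw [Submodule.mem_bot]
  change Ideal.Quotient.mk I (r * n) = 0
  rw [Ideal.Quotient.eq_zero_iff_mem]
  exact I.mul_mem_right _ (h hr)

theorem length_quot_pow' (j : ℕ) :
    Module.length (MvPolynomial σ K) (MvPolynomial σ K ⧸ idealOfVars σ K ^ j) =
      (lowCard (Fintype.card σ) j : ℕ) := by
  rw [length_eq_base (K := K) (idealOfVars σ K) surj_base j _ (smul_top_quot _ _ le_rfl),
    length_quot_pow]

omit [Fintype σ] [DecidableEq σ] in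
theorem mem_pow_iff_order (n : ℕ) (p : MvPolynomial σ K) :
    p ∈ idealOfVars σ K ^ n ↔ (n : ℕ∞) ≤ (p : MvPowerSeries σ K).order := by
  rw [mem_pow_idealOfVars_iff']
  constructor
  · intro h
    apply MvPowerSeries.nat_le_order
    intro d hd
    rw [MvPolynomial.coeff_coe]
    exact h d hd
  · intro h x hx
    rw [← MvPolynomial.coeff_coe]
    apply MvPowerSeries.coeff_of_lt_order
    exact lt_of_lt_of_le (by exact_mod_cast hx) h

omit [Fintype σ] [DecidableEq σ] in
/-- Orders add up: a product with an element of order at most `e`. -/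
theorem mem_pow_of_mul {f g : MvPolynomial σ K} {e j : ℕ}
    (hf' : f ∉ idealOfVars σ K ^ (e + 1)) (h : f * g ∈ idealOfVars σ K ^ (e + j)) :
    g ∈ idealOfVars σ K ^ j := by
  rw [mem_pow_iff_order] at *
  rw [MvPolynomial.coe_mul, MvPowerSeries.order_mul] at h
  push Not at hf'
  have h1 : (f : MvPowerSeries σ K).order ≤ e := by
    rw [Nat.cast_add, Nat.cast_one] at hf'
    exact Order.lt_add_one_iff_of_not_isMax (by simp) |>.1 hf'
  have h2 : ((e : ℕ∞) + j) ≤ e + (g : MvPowerSeries σ K).order := by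
    refine le_trans (by exact_mod_cast h) (add_le_add_left h1 _)
  exact (ENat.add_le_add_iff_left (by simp)).1 h2

theorem length_hypersurface {f : MvPolynomial σ K} {e : ℕ}
    (hf : f ∈ idealOfVars σ K ^ e) (hf' : f ∉ idealOfVars σ K ^ (e + 1)) (j : ℕ) :
    (lowCard (Fintype.card σ) (e + j) : ℕ∞) = (lowCard (Fintype.card σ) j : ℕ) +
      Module.length (MvPolynomial σ K)
        (MvPolynomial σ K ⧸ (Ideal.span {f} ⊔ idealOfVars σ K ^ (e + j))) := by
  have h1 : idealOfVars σ K ^ j ≤ Submodule.comap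
      (LinearMap.mulLeft (MvPolynomial σ K) f) (idealOfVars σ K ^ (e + j)) := by
    intro g hg
    rw [Submodule.mem_comap, LinearMap.mulLeft_apply, pow_add]
    exact Ideal.mul_mem_mul hf hg
  have h2 : idealOfVars σ K ^ (e + j) ≤ Submodule.comap (LinearMap.id)
      (Ideal.span {f} ⊔ idealOfVars σ K ^ (e + j)) := by
    intro g hg
    exact Ideal.mem_sup_right hg
  rw [← length_quot_pow' (K := K) (σ := σ) j, ← length_quot_pow' (K := K) (σ := σ) (e + j)]
  apply Module.length_eq_add_of_exact (Submodule.mapQ _ _ _ h1) (Submodule.mapQ _ _ _ h2)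
  · rw [injective_iff_map_eq_zero]
    intro x hx
    obtain ⟨x, rfl⟩ := Submodule.mkQ_surjective _ x
    rw [Submodule.mkQ_apply, Submodule.mapQ_apply, Submodule.Quotient.mk_eq_zero] at hx
    rw [Submodule.mkQ_apply, Submodule.Quotient.mk_eq_zero]
    exact mem_pow_of_mul hf' hx
  · intro x
    obtain ⟨x, rfl⟩ := Submodule.mkQ_surjective _ x
    exact ⟨Submodule.mkQ _ x, rfl⟩
  · intro x
    obtain ⟨x, rfl⟩ := Submodule.mkQ_surjective _ x
    rw [Submodule.mkQ_apply, Submodule.mapQ_apply, Submodule.Quotient.mk_eq_zero]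
    constructor
    · intro h
      rw [LinearMap.id_apply, Submodule.mem_sup] at h
      obtain ⟨y, hy, z, hz, rfl⟩ := h
      rw [Ideal.mem_span_singleton'] at hy
      obtain ⟨a, rfl⟩ := hy
      refine ⟨Submodule.Quotient.mk a, ?_⟩
      rw [Submodule.mapQ_apply, Submodule.Quotient.eq, LinearMap.mulLeft_apply]
      have : f * a - (a * f + z) = - z := by ring
      rw [this]
      exact neg_mem hz
    · rintro ⟨y, hy⟩
      obtain ⟨y, rfl⟩ := Submodule.mkQ_surjective _ y
      rw [Submodule.mkQ_apply, Submodule.mapQ_apply, Submodule.Quotient.eq,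
        LinearMap.mulLeft_apply] at hy
      rw [LinearMap.id_apply, Submodule.mem_sup]
      refine ⟨f * y, Ideal.mem_span_singleton.2 (Dvd.intro _ rfl), - (f * y - x), neg_mem hy, ?_⟩
      ring

/-- The Hilbert-Samuel polynomial of a hypersurface singularity of order `e` in `N + 1`
variables. -/
noncomputable def hyperPoly (N e : ℕ) : Polynomial ℚ :=
  ∑ i ∈ Finset.range e, Polynomial.preHilbertPoly ℚ N i

theorem coeff_hyperPoly (N e : ℕ) : (N.factorial : ℚ) * (hyperPoly N e).coeff N = e := by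
  rw [hyperPoly, Polynomial.finsetSum_coeff]
  simp_rw [Polynomial.coeff_preHilbertPoly_self]
  rw [Finset.sum_const, Finset.card_range, nsmul_eq_mul]
  have := Nat.cast_ne_zero (R := ℚ) |>.2 (Nat.factorial_ne_zero N)
  field_simp

theorem lowCard_add (N j e : ℕ) :
    lowCard N (e + j) = lowCard N j + ∑ i ∈ Finset.range e, N.multichoose (e + j - 1 - i) := by
  rw [lowCard, add_comm e j, Finset.sum_range_add, lowCard]
  congr 1
  rw [← Finset.sum_range_reflect]
  apply Finset.sum_congr rfl
  intro i hi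
  rw [Finset.mem_range] at hi
  congr 1
  omega

theorem eval_hyperPoly (N e k : ℕ) (hk : e ≤ k + 1) :
    (hyperPoly N e).eval (k : ℚ) =
      ((∑ i ∈ Finset.range e, (N + 1).multichoose (k - i) : ℕ) : ℚ) := by
  rw [hyperPoly, Polynomial.eval_finsetSum, Nat.cast_sum]
  apply Finset.sum_congr rfl
  intro i hi
  rw [Finset.mem_range] at hi
  rw [Polynomial.preHilbertPoly_eq_choose_sub_add _ _ (by omega), Nat.multichoose_eq]
  congr 1
  rw [show N + 1 + (k - i) - 1 = k - i + N by omega]
  rw [Nat.choose_symm_add]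

end Pool.Agent.Hhelper10.Schub
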