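import Pool.Agent.Hhelper10.Schub.ChartIdeal

/-!
# The prime ideals defining some Schubert varieties
-/

namespace Pool.Agent.Hhelper10.Schub

open Matrix MvPolynomial

theorem totalDegree_aeval_le {K : Type*} [Field K] {σ τ : Type*} (f : σ → MvPolynomial τ K)
    (hf : ∀ i, (f i).totalDegree ≤ 1) (p : MvPolynomial σ K) :
    (aeval f p).totalDegree ≤ p.totalDegree := by
  rw [aeval_def, eval₂_eq]
  apply totalDegree_finsetSum_le
  intro d hd
  rw [MvPolynomial.algebraMap_eq]
  refine (totalDegree_mul _ _).trans ?_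
  rw [totalDegree_C, zero_add]
  refine (totalDegree_finsetProd _ _).trans ?_
  refine le_trans (Finset.sum_le_sum (g := fun i => d i) fun i _ => ?_) (le_totalDegree hd)
  exact (totalDegree_pow _ _).trans (by
    have := Nat.mul_le_mul_left (d i) (hf i)
    rwa [mul_one] at this)

theorem totalDegree_det_le {K : Type*} [Field K] {τ : Type*} {m : ℕ}
    (M : Matrix (Fin m) (Fin m) (MvPolynomial τ K)) (hM : ∀ i j, (M i j).totalDegree ≤ 1) :
    M.det.totalDegree ≤ m := by
  rw [Matrix.det_apply]
  apply totalDegree_finsetSum_le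
  intro s _
  have h1 : ((Equiv.Perm.sign s) • ∏ i, M (s i) i).totalDegree ≤ (∏ i, M (s i) i).totalDegree := by
    rcases Int.units_eq_one_or (Equiv.Perm.sign s) with h | h
    · rw [h, one_smul]
    · rw [h, Units.neg_smul, one_smul, totalDegree_neg]
  refine h1.trans ((totalDegree_finsetProd _ _).trans ?_)
  refine (Finset.sum_le_sum (g := fun _ => 1) fun i _ => hM _ _).trans ?_
  simp

theorem irreducible_binomial (m : ℕ) (a b : ℂ) (ha : a ≠ 0) (hb : b ≠ 0) :
    Irreducible (C a * X 0 ^ m + C b * (X 1 ^ (m - 1) * X 2) : MvPolynomial (Fin 3) ℂ) ∧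
    m ≤ (C a * X 0 ^ m + C b * (X 1 ^ (m - 1) * X 2) : MvPolynomial (Fin 3) ℂ).totalDegree := by
  set d1 : Fin 3 →₀ ℕ := Finsupp.single 0 m with hd1
  set d2 : Fin 3 →₀ ℕ := Finsupp.single 1 (m - 1) + Finsupp.single 2 1 with hd2
  have e : (C a * X 0 ^ m + C b * (X 1 ^ (m - 1) * X 2) : MvPolynomial (Fin 3) ℂ) =
      monomial d1 a + monomial d2 b := by
    rw [hd1, hd2, X_pow_eq_monomial, X_pow_eq_monomial, X, monomial_mul, C_mul_monomial,
      C_mul_monomial]
    simp
  have h12 : d1 ≠ d2 := by
    intro h
    have := DFunLike.congr_fun h 2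
    simp [hd1, hd2] at this
  have hc1 : (monomial d1 a + monomial d2 b : MvPolynomial (Fin 3) ℂ).coeff d1 = a := by
    rw [coeff_add, coeff_monomial, coeff_monomial, if_pos rfl, if_neg h12.symm, add_zero]
  have hc2 : (monomial d1 a + monomial d2 b : MvPolynomial (Fin 3) ℂ).coeff d2 = b := by
    rw [coeff_add, coeff_monomial, coeff_monomial, if_pos rfl, if_neg h12, zero_add]
  have hsupp : (monomial d1 a + monomial d2 b : MvPolynomial (Fin 3) ℂ).support ⊆ {d1, d2} := by
    refine (support_add).trans ?_
    intro d hd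
    rw [Finset.mem_union] at hd
    rw [Finset.mem_insert, Finset.mem_singleton]
    rcases hd with hd | hd
    · left
      have := support_monomial_subset hd
      simpa using this
    · right
      have := support_monomial_subset hd
      simpa using this
  have hmem1 : d1 ∈ (monomial d1 a + monomial d2 b : MvPolynomial (Fin 3) ℂ).support := by
    rw [mem_support_iff, hc1]
    exact ha
  have hmem2 : d2 ∈ (monomial d1 a + monomial d2 b : MvPolynomial (Fin 3) ℂ).support := by
    rw [mem_support_iff, hc2]
    exact hb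
  rw [e]
  constructor
  · apply irreducible_of_disjoint_support (d := d2) (i := 2)
    · exact ⟨d1, hmem1, d2, hmem2, h12⟩
    · exact hmem2
    · simp [hd2]
    · have hdisj : Disjoint d1.support d2.support := by
        rw [Finset.disjoint_left]
        intro i hi hi'
        rw [Finsupp.mem_support_iff] at hi hi'
        fin_cases i
        · simp [hd2] at hi'
        · simp [hd1] at hi
        · simp [hd1] at hi
      intro x hx y hy hxy
      have hx' := hsupp hx
      have hy' := hsupp hy
      rw [Finset.mem_insert, Finset.mem_singleton] at hx' hy'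
      rcases hx' with rfl | rfl <;> rcases hy' with rfl | rfl
      · exact absurd rfl hxy
      · exact hdisj
      · exact hdisj.symm
      · exact absurd rfl hxy
    · intro r hr
      have := hr d1
      rw [hc1] at this
      exact isUnit_of_dvd_unit this (isUnit_iff_ne_zero.2 ha)
  · have := le_totalDegree hmem1
    simpa [hd1] using this

/-- Setting the entries at the positions in `Z` to zero. -/
noncomputable def kill {n : ℕ} (Z : Finset (Fin n × Fin n)) : PMat n →ₐ[ℂ] PMat n :=
  aeval fun p => if p ∈ Z then 0 else X p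

/-- The ideal generated by the entries at the positions in `Z`. -/
noncomputable def zeroIdeal {n : ℕ} (Z : Finset (Fin n × Fin n)) : Ideal (PMat n) :=
  Ideal.span ((fun p => (X p : PMat n)) '' (Z : Set (Fin n × Fin n)))

theorem kill_mem_zeroIdeal {n : ℕ} {Z : Finset (Fin n × Fin n)} {F : PMat n}
    (hF : F ∈ zeroIdeal Z) : kill Z F = 0 := by
  have h : zeroIdeal Z ≤ RingHom.ker (kill Z) := by
    rw [zeroIdeal, Ideal.span_le]
    rintro _ ⟨p, hp, rfl⟩
    have hp' : p ∈ Z := hp
    simp [kill, RingHom.mem_ker, hp']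
  exact h hF

theorem sub_kill_mem {n : ℕ} (Z : Finset (Fin n × Fin n)) (F : PMat n) :
    F - kill Z F ∈ zeroIdeal Z := by
  rw [← Ideal.Quotient.eq]
  have h : (Ideal.Quotient.mkₐ ℂ (zeroIdeal Z)) = (Ideal.Quotient.mkₐ ℂ (zeroIdeal Z)).comp
      (kill Z) := by
    ext p
    simp only [AlgHom.comp_apply, kill, aeval_X]
    split_ifs with hp
    · rw [map_zero]
      rw [Ideal.Quotient.mkₐ_eq_mk, Ideal.Quotient.eq_zero_iff_mem]
      exact Ideal.subset_span ⟨p, hp, rfl⟩
    · rfl
  exact AlgHom.congr_fun h F

/-- The `(last, first)` entry of the adjugate of the generic matrix. -/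
noncomputable def adjEntry (m : ℕ) : PMat (m + 1) :=
  (genMat (m + 1)).adjugate (Fin.last m) 0

/-- The ideal generated by the entries at the positions in `Z` and by the `(last, first)` entry of
the adjugate. -/
noncomputable def condIdeal {m : ℕ} (Z : Finset (Fin (m + 1) × Fin (m + 1))) :
    Ideal (PMat (m + 1)) :=
  zeroIdeal Z ⊔ Ideal.span {adjEntry m}

theorem condIdeal_eq {m : ℕ} (Z : Finset (Fin (m + 1) × Fin (m + 1))) :
    condIdeal Z = (Ideal.span {kill Z (adjEntry m)}).comap (kill Z) := by
  apply le_antisymm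
  · rw [condIdeal, sup_le_iff]
    constructor
    · intro F hF
      rw [Ideal.mem_comap, kill_mem_zeroIdeal hF]
      exact zero_mem _
    · rw [Ideal.span_le, Set.singleton_subset_iff]
      exact Ideal.mem_span_singleton_self _
  · intro F hF
    rw [Ideal.mem_comap, Ideal.mem_span_singleton'] at hF
    obtain ⟨q, hq⟩ := hF
    have h1 := sub_kill_mem Z F
    have h2 := sub_kill_mem Z (adjEntry m)
    have h3 : F = (F - kill Z F) + (- q * (adjEntry m - kill Z (adjEntry m))) +
        q * adjEntry m := by
      rw [← hq]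
      ring
    rw [h3, condIdeal]
    apply add_mem
    · apply Ideal.mem_sup_left
      exact add_mem h1 (Ideal.mul_mem_left _ _ h2)
    · apply Ideal.mem_sup_right
      exact Ideal.mul_mem_left _ _ (Ideal.mem_span_singleton_self _)

theorem totalDegree_kill_adjEntry_le {m : ℕ} (Z : Finset (Fin (m + 1) × Fin (m + 1))) :
    (kill Z (adjEntry m)).totalDegree ≤ m := by
  refine (totalDegree_aeval_le _ ?_ _).trans ?_
  · intro p
    split_ifs
    · simp
    · rw [totalDegree_X]
  · rw [adjEntry, Matrix.adjugate_fin_succ_eq_det_submatrix]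
    refine (totalDegree_mul _ _).trans ?_
    have h1 : ((-1 : PMat (m + 1)) ^ (((0 : Fin (m + 1)) : ℕ) + (Fin.last m : ℕ))).totalDegree
        = 0 := by
      have : ((-1 : PMat (m + 1)) ^ (((0 : Fin (m + 1)) : ℕ) + (Fin.last m : ℕ))) =
          C ((-1) ^ (((0 : Fin (m + 1)) : ℕ) + (Fin.last m : ℕ))) := by
        simp
      rw [this, totalDegree_C]
    rw [h1, zero_add]
    apply totalDegree_det_le
    intro i j
    simp [genMat, toMat]

/-- Irreducibility by specialisation. -/
theorem condIdeal_isPrime {m : ℕ} (Z : Finset (Fin (m + 1) × Fin (m + 1)))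
    (M : Matrix (Fin (m + 1)) (Fin (m + 1)) (MvPolynomial (Fin 3) ℂ))
    (hM0 : ∀ p ∈ Z, M p.1 p.2 = 0) (hM1 : ∀ i j, (M i j).totalDegree ≤ 1)
    (a b : ℂ) (ha : a ≠ 0) (hb : b ≠ 0)
    (hM : M.adjugate (Fin.last m) 0 = C a * X 0 ^ m + C b * (X 1 ^ (m - 1) * X 2)) :
    (condIdeal Z).IsPrime := by
  obtain ⟨hirr, hdeg⟩ := irreducible_binomial m a b ha hb
  rw [← hM] at hirr hdeg
  let ρ : PMat (m + 1) →ₐ[ℂ] MvPolynomial (Fin 3) ℂ := aeval (entries M)
  have hρk : ρ.comp (kill Z) = ρ := by
    ext1 p
    simp only [ρ, AlgHom.comp_apply, kill, aeval_X]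
    split_ifs with hp
    · rw [map_zero]
      exact (hM0 p hp).symm
    · rw [aeval_X]
  have hρ : ρ (kill Z (adjEntry m)) = M.adjugate (Fin.last m) 0 := by
    rw [← AlgHom.comp_apply, hρk, adjEntry]
    have h1 := RingHom.map_adjugate (ρ : PMat (m + 1) →+* MvPolynomial (Fin 3) ℂ)
      (genMat (m + 1))
    have h2 := congrFun (congrFun h1 (Fin.last m)) 0
    rw [RingHom.mapMatrix_apply, Matrix.map_apply] at h2
    rw [RingHom.mapMatrix_apply] at h2
    have h3 : (genMat (m + 1)).map (ρ : PMat (m + 1) →+* MvPolynomial (Fin 3) ℂ) = M := by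
      have := genMat_map (entries M)
      rw [toMat_entries] at this
      exact this
    rw [h3] at h2
    exact h2
  have hdegρ : ∀ F : PMat (m + 1), (ρ F).totalDegree ≤ F.totalDegree :=
    totalDegree_aeval_le _ (fun p => hM1 p.1 p.2)
  have hprime : Irreducible (kill Z (adjEntry m)) := by
    refine ⟨fun h => ?_, fun x y hxy => ?_⟩
    · have := h.map ρ
      rw [hρ] at this
      exact hirr.not_isUnit this
    · have hne : kill Z (adjEntry m) ≠ 0 := by
        intro h
        rw [h, map_zero] at hρ
        exact hirr.ne_zero hρ.symm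
      have hx0 : x ≠ 0 := by
        rintro rfl
        rw [zero_mul] at hxy
        exact hne hxy
      have hy0 : y ≠ 0 := by
        rintro rfl
        rw [mul_zero] at hxy
        exact hne hxy
      have h1 : M.adjugate (Fin.last m) 0 = ρ x * ρ y := by rw [← hρ, hxy, map_mul]
      have hxr : ρ x ≠ 0 := by
        intro h
        rw [h, zero_mul] at h1
        exact hirr.ne_zero h1
      have hyr : ρ y ≠ 0 := by
        intro h
        rw [h, mul_zero] at h1
        exact hirr.ne_zero h1
      have h2 : x.totalDegree + y.totalDegree ≤ m := by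
        rw [← totalDegree_mul_of_isDomain hx0 hy0, ← hxy]
        exact totalDegree_kill_adjEntry_le Z
      rw [h1, totalDegree_mul_of_isDomain hxr hyr] at hdeg
      have hx := hdegρ x
      have hy := hdegρ y
      have unit_of : ∀ t : PMat (m + 1), t ≠ 0 → t.totalDegree = 0 → IsUnit t := by
        intro t ht h
        rw [isUnit_iff_totalDegree_of_isReduced]
        refine ⟨?_, h⟩
        rw [totalDegree_eq_zero_iff_eq_C] at h
        rw [isUnit_iff_ne_zero]
        intro h0
        rw [h0, map_zero] at h
        exact ht h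
      rcases hirr.isUnit_or_isUnit h1 with h | h
      · left
        have := (isUnit_iff_totalDegree_of_isReduced.1 h).2
        exact unit_of x hx0 (by omega)
      · right
        have := (isUnit_iff_totalDegree_of_isReduced.1 h).2
        exact unit_of y hy0 (by omega)
  rw [condIdeal_eq]
  have : (Ideal.span {kill Z (adjEntry m)}).IsPrime :=
    (Ideal.span_singleton_prime hprime.ne_zero).2 hprime.prime
  exact Ideal.comap_isPrime _ _

end Pool.Agent.Hhelper10.Schub
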