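import Pool.Agent.Hhelper10.Schub.Bruhat

/-!
# LU decomposition over commutative rings and the charts of the flag variety
-/

namespace Pool.Agent.Hhelper10.Schub

open Matrix

variable {R : Type*} [CommRing R] {n : ℕ}

/-- The leading principal block of rows and columns `< i`. -/
abbrev lead (M : Matrix (Fin n) (Fin n) R) (i : Fin n) :
    Matrix {l : Fin n // l < i} {l : Fin n // l < i} R :=
  M.submatrix Subtype.val Subtype.val

theorem lowerUni_lt {z : Lo n → R} {i j : Fin n} (h : j < i) :
    lowerUni z i j = z ⟨(i, j), h⟩ := by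
  simp [lowerUni, h]

theorem lowerUni_self (z : Lo n → R) (i : Fin n) : lowerUni z i i = 1 := by
  simp [lowerUni]

theorem lowerUni_gt (z : Lo n → R) {i j : Fin n} (h : i < j) : lowerUni z i j = 0 := by
  simp [lowerUni, not_lt_of_gt h, ne_of_lt h]

theorem lowerUni_injective : Function.Injective (lowerUni : (Lo n → R) → _) := by
  intro z z' h
  ext ⟨⟨i, j⟩, hij⟩
  have := congrFun (congrFun h i) j
  rwa [lowerUni_lt hij, lowerUni_lt hij] at this

theorem lowerUni_map {S : Type*} [CommRing S] (f : R →+* S) (z : Lo n → R) :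
    (lowerUni z).map f = lowerUni (fun p => f (z p)) := by
  ext i j
  rw [Matrix.map_apply]
  rcases lt_trichotomy j i with h | h | h
  · rw [lowerUni_lt h, lowerUni_lt h]
  · subst h
    rw [lowerUni_self, lowerUni_self, map_one]
  · rw [lowerUni_gt _ h, lowerUni_gt _ h, map_zero]

theorem permMat_map {S : Type*} [CommRing S] (f : R →+* S) (w : Equiv.Perm (Fin n)) :
    (permMat R w).map f = permMat S w := by
  ext i j
  simp [permMat]

theorem lowerUni_inv (z : Lo n → R) : ∃ z' : Lo n → R, lowerUni z * lowerUni z' = 1 ∧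
    lowerUni z' * lowerUni z = 1 := by
  have hdet : IsUnit (lowerUni z).det := by rw [det_lowerUni]; exact isUnit_one
  let _ : Invertible (lowerUni z) := (lowerUni z).invertibleOfIsUnitDet hdet
  have h : BlockTriangular (lowerUni z) OrderDual.toDual := fun i j hij => lowerUni_gt z hij
  have h2 := blockTriangular_inv_of_blockTriangular h
  have h3 : ∀ i j : Fin n, i < j → (lowerUni z)⁻¹ i j = 0 := fun i j hij => h2 hij
  have h4 : ∀ i : Fin n, (lowerUni z)⁻¹ i i = 1 := by
    intro i
    have h5 : (lowerUni z * (lowerUni z)⁻¹) i i = 1 := by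
      rw [Matrix.mul_nonsing_inv _ hdet, Matrix.one_apply_eq]
    rw [Matrix.mul_apply, Finset.sum_eq_single i, lowerUni_self, one_mul] at h5
    · exact h5
    · intro k _ hk
      rcases lt_or_gt_of_ne hk with h | h
      · rw [h3 k i h, mul_zero]
      · rw [lowerUni_gt z h, zero_mul]
    · simp
  have h6 : (lowerUni z)⁻¹ = lowerUni (fun p => (lowerUni z)⁻¹ p.1.1 p.1.2) := by
    ext i j
    rcases lt_trichotomy j i with h | h | h
    · rw [lowerUni_lt h]
    · subst h
      rw [lowerUni_self, h4]
    · rw [lowerUni_gt _ h, h3 i j h]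
  refine ⟨fun p => (lowerUni z)⁻¹ p.1.1 p.1.2, ?_, ?_⟩
  · rw [← h6, Matrix.mul_nonsing_inv _ hdet]
  · rw [← h6, Matrix.nonsing_inv_mul _ hdet]

/-- LU decomposition when all leading principal minors are units. -/
theorem exists_LU (M : Matrix (Fin n) (Fin n) R) (h : ∀ i : Fin n, IsUnit (lead M i).det)
    (hdet : IsUnit M.det) : ∃ (z : Lo n → R) (U : Matrix (Fin n) (Fin n) R),
      (∀ i j, j < i → U i j = 0) ∧ (∀ i, IsUnit (U i i)) ∧ M = lowerUni z * U := by
  let y : Lo n → R := fun p =>
    - ∑ l : {l : Fin n // l < p.1.1}, M p.1.1 l.1 * (lead M p.1.1)⁻¹ l ⟨p.1.2, p.2⟩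
  have hU : ∀ i j : Fin n, j < i → (lowerUni y * M) i j = 0 := by
    intro i j hij
    rw [Matrix.mul_apply, ← Finset.sum_filter_add_sum_filter_not Finset.univ (fun k => k < i)]
    have e1 : ∑ k ∈ Finset.univ.filter (fun k => ¬ k < i), lowerUni y i k * M k j = M i j := by
      rw [Finset.sum_eq_single i]
      · rw [lowerUni_self, one_mul]
      · intro k hk hki
        rw [Finset.mem_filter] at hk
        have : i < k := lt_of_le_of_ne (not_lt.1 hk.2) hki.symm
        rw [lowerUni_gt _ this, zero_mul]
      · intro hi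
        exact absurd (by simp) hi
    have e2 : ∑ k ∈ Finset.univ.filter (fun k => k < i), lowerUni y i k * M k j =
        ∑ k : {l : Fin n // l < i}, lowerUni y i k.1 * M k.1 j := by
      rw [← Finset.sum_subtype_eq_sum_filter]
      apply Finset.sum_congr
      · ext x
        simp
      · intros; rfl
    have e3 : ∑ k : {l : Fin n // l < i}, lowerUni y i k.1 * M k.1 j =
        - ∑ l : {l : Fin n // l < i}, M i l.1 * ((lead M i)⁻¹ * lead M i) l ⟨j, hij⟩ := by
      simp only [Matrix.mul_apply, Finset.mul_sum]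
      rw [Finset.sum_comm, ← Finset.sum_neg_distrib]
      apply Finset.sum_congr rfl
      intro k _
      rw [lowerUni_lt k.2]
      simp only [y]
      rw [neg_mul, Finset.sum_mul]
      congr 1
      apply Finset.sum_congr rfl
      intro l _
      simp only [lead, Matrix.submatrix_apply]
      ring
    rw [e1, e2, e3, Matrix.nonsing_inv_mul _ (h i)]
    simp [Matrix.one_apply]
  obtain ⟨z, hz1, hz2⟩ := lowerUni_inv y
  refine ⟨z, lowerUni y * M, hU, fun i => ?_, ?_⟩
  · have h1 : (lowerUni y * M).det = M.det := by rw [Matrix.det_mul, det_lowerUni, one_mul]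
    rw [Matrix.det_of_isUpperTriangular (fun i j h => hU i j h)] at h1
    rw [← h1] at hdet
    exact isUnit_of_dvd_unit
      (Finset.dvd_prod_of_mem (fun i => (lowerUni y * M) i i) (Finset.mem_univ i)) hdet
  · rw [← Matrix.mul_assoc, hz2, Matrix.one_mul]

theorem LU_unique {z z0 : Lo n → R} {U : Matrix (Fin n) (Fin n) R}
    (hU : ∀ i j, j < i → U i j = 0) (h : lowerUni z0 = lowerUni z * U) : z0 = z := by
  obtain ⟨z', h1, h2⟩ := lowerUni_inv z
  have h3 : U = lowerUni z' * lowerUni z0 := by
    rw [h, ← Matrix.mul_assoc, h2, Matrix.one_mul]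
  have h4 : U = 1 := by
    ext i j
    rcases lt_trichotomy j i with hij | hij | hij
    · rw [hU i j hij, Matrix.one_apply_ne (ne_of_gt hij)]
    · subst hij
      rw [h3, Matrix.mul_apply, Finset.sum_eq_single j, lowerUni_self, lowerUni_self, mul_one,
        Matrix.one_apply_eq]
      · intro k _ hk
        rcases lt_or_gt_of_ne hk with h | h
        · rw [lowerUni_gt z0 h, mul_zero]
        · rw [lowerUni_gt z' h, zero_mul]
      · simp
    · rw [h3, Matrix.mul_apply, Matrix.one_apply_ne (ne_of_lt hij)]
      apply Finset.sum_eq_zero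
      intro k _
      rcases lt_or_ge i k with h | h
      · rw [lowerUni_gt z' h, zero_mul]
      · rw [lowerUni_gt z0 (lt_of_le_of_lt h hij), mul_zero]
  rw [h4, Matrix.mul_one] at h
  exact lowerUni_injective h

end Pool.Agent.Hhelper10.Schub
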