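import Pool.Agent.Hhelper10.Schub.Cells

/-!
# Multiplicity of a hypersurface in a coordinate subspace
-/

namespace Pool.Agent.Hhelper10.Schub

open Matrix MvPolynomial

variable {σ : Type} [Fintype σ] [DecidableEq σ]

/-- Restriction to the coordinate subspace where the coordinates in `T` vanish. -/
noncomputable def proj (T : Finset σ) :
    MvPolynomial σ ℂ →ₐ[ℂ] MvPolynomial {s : σ // s ∉ T} ℂ :=
  aeval fun s => if h : s ∈ T then 0 else X ⟨s, h⟩

/-- The ideal generated by the coordinates in `T`. -/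
noncomputable def varIdeal (T : Finset σ) : Ideal (MvPolynomial σ ℂ) :=
  Ideal.span ((fun s => (X s : MvPolynomial σ ℂ)) '' (T : Set σ))

omit [Fintype σ] in
theorem proj_eq_zero {T : Finset σ} {g : MvPolynomial σ ℂ} (hg : g ∈ varIdeal T) :
    proj T g = 0 := by
  have h : varIdeal T ≤ RingHom.ker (proj T) := by
    rw [varIdeal, Ideal.span_le]
    rintro _ ⟨p, hp, rfl⟩
    have hp' : p ∈ T := hp
    simp [proj, RingHom.mem_ker, hp']
  exact h hg

omit [Fintype σ] in
theorem sub_incl_proj_mem (T : Finset σ) (g : MvPolynomial σ ℂ) :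
    g - rename Subtype.val (proj T g) ∈ varIdeal T := by
  rw [← Ideal.Quotient.eq]
  have h : (Ideal.Quotient.mkₐ ℂ (varIdeal T)) = (Ideal.Quotient.mkₐ ℂ (varIdeal T)).comp
      ((rename Subtype.val).comp (proj T)) := by
    ext p
    simp only [AlgHom.comp_apply, proj, aeval_X]
    split_ifs with hp
    · rw [map_zero, map_zero]
      rw [Ideal.Quotient.mkₐ_eq_mk, Ideal.Quotient.eq_zero_iff_mem]
      exact Ideal.subset_span ⟨p, hp, rfl⟩
    · rw [rename_X]
  exact AlgHom.congr_fun h g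

omit [Fintype σ] in
theorem proj_rename (T : Finset σ) (g : MvPolynomial {s : σ // s ∉ T} ℂ) :
    proj T (rename Subtype.val g) = g := by
  rw [← AlgHom.comp_apply]
  have : (proj T).comp (rename Subtype.val) = AlgHom.id ℂ _ := by
    ext1 s
    simp [proj, s.2]
  rw [this]
  rfl

omit [Fintype σ] in
theorem comap_proj (T : Finset σ) (f : MvPolynomial σ ℂ) :
    (Ideal.span {proj T f}).comap (proj T) = varIdeal T ⊔ Ideal.span {f} := by
  apply le_antisymm
  · intro F hF
    rw [Ideal.mem_comap, Ideal.mem_span_singleton'] at hF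
    obtain ⟨q, hq⟩ := hF
    have h1 := sub_incl_proj_mem T F
    have h2 := sub_incl_proj_mem T f
    have h3 : F = (F - rename Subtype.val (proj T F)) + (- rename Subtype.val q *
        (f - rename Subtype.val (proj T f))) + rename Subtype.val q * f := by
      rw [← hq, map_mul]
      ring
    rw [h3]
    apply add_mem
    · apply Ideal.mem_sup_left
      exact add_mem h1 (Ideal.mul_mem_left _ _ h2)
    · apply Ideal.mem_sup_right
      exact Ideal.mul_mem_left _ _ (Ideal.mem_span_singleton_self _)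
  · rw [sup_le_iff]
    constructor
    · intro F hF
      rw [Ideal.mem_comap, proj_eq_zero hF]
      exact zero_mem _
    · rw [Ideal.span_le, Set.singleton_subset_iff]
      exact Ideal.mem_span_singleton_self _

omit [Fintype σ] in
theorem exists_equiv (S : Set (σ → ℂ)) (T : Finset σ)
    (f : MvPolynomial σ ℂ) (hS : vanishingIdeal ℂ S = varIdeal T ⊔ Ideal.span {f}) :
    ∃ ψ : CoordRing S ≃+* (MvPolynomial {s : σ // s ∉ T} ℂ ⧸ Ideal.span {proj T f}),
      ∀ g, ψ (CoordRing.mk S g) = Ideal.Quotient.mk _ (proj T g) := by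
  let F : MvPolynomial σ ℂ →+* (MvPolynomial {s : σ // s ∉ T} ℂ ⧸ Ideal.span {proj T f}) :=
    (Ideal.Quotient.mk _).comp (proj T : MvPolynomial σ ℂ →+* _)
  have hF : Function.Surjective F := by
    intro y
    obtain ⟨y, rfl⟩ := Ideal.Quotient.mk_surjective y
    refine ⟨rename Subtype.val y, ?_⟩
    change Ideal.Quotient.mk _ (proj T (rename Subtype.val y)) = _
    rw [proj_rename]
  have hker : vanishingIdeal ℂ S = RingHom.ker F := by
    rw [hS, ← comap_proj]
    ext g
    rw [RingHom.mem_ker, Ideal.mem_comap]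
    exact Ideal.Quotient.eq_zero_iff_mem.symm
  exact ⟨(Ideal.quotEquivOfEq hker).trans (RingHom.quotientKerEquivOfSurjective hF),
    fun g => rfl⟩

theorem map_max_of_equiv {A B : Type*} [CommRing A] [CommRing B] (m : Ideal A) (hm : m.IsMaximal)
    (ψ : A ≃+* B) : (m.map (ψ : A →+* B)).IsMaximal :=
  Ideal.IsMaximal.map_bijective _ ψ.bijective hm

theorem map_max_eq {τ A : Type*} [CommRing A] (I : Ideal (MvPolynomial τ ℂ))
    (hI : I ≤ idealOfVars τ ℂ) (ψ : A ≃+* MvPolynomial τ ℂ ⧸ I) (m : Ideal A)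
    (hm : m.IsMaximal) (q : τ → A) (hq : ∀ i, q i ∈ m)
    (hψ : ∀ i, ψ (q i) = Ideal.Quotient.mk _ (X i)) :
    (idealOfVars τ ℂ).map (Ideal.Quotient.mk I) = m.map (ψ : A →+* MvPolynomial τ ℂ ⧸ I) := by
  have hmax : ((idealOfVars τ ℂ).map (Ideal.Quotient.mk I)).IsMaximal := by
    apply Ideal.IsMaximal.map_of_surjective_of_ker_le Ideal.Quotient.mk_surjective
    rwa [Ideal.mk_ker]
  have hmax2 := map_max_of_equiv m hm ψ
  refine Ideal.IsMaximal.eq_of_le hmax hmax2.ne_top ?_
  rw [Ideal.map_le_iff_le_comap, idealOfVars, Ideal.span_le]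
  rintro _ ⟨i, rfl⟩
  rw [SetLike.mem_coe, Ideal.mem_comap, ← hψ]
  exact Ideal.mem_map_of_mem (ψ : A →+* MvPolynomial τ ℂ ⧸ I) (hq i)

theorem hasMultiplicity_localRingAt (S : Set (σ → ℂ)) (h0 : (0 : σ → ℂ) ∈ S) (T : Finset σ)
    (f : MvPolynomial σ ℂ) (hS : vanishingIdeal ℂ S = varIdeal T ⊔ Ideal.span {f})
    (e : ℕ) (he : 1 ≤ e) (hf : proj T f ∈ idealOfVars {s : σ // s ∉ T} ℂ ^ e)
    (hf' : proj T f ∉ idealOfVars {s : σ // s ∉ T} ℂ ^ (e + 1)) :
    HasMultiplicity (LocalRingAt S 0 h0) e := by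
  obtain ⟨ψ, hψ⟩ := exists_equiv S T f hS
  have hfm : proj T f ∈ idealOfVars {s : σ // s ∉ T} ℂ := by
    have := Ideal.pow_le_pow_right he hf
    rwa [pow_one] at this
  refine hasMultiplicity_of_iso (RingHom.ker (evalAt S 0 h0)) (proj T f) e he hf hf'
    (Ideal.span {proj T f}) rfl ψ ?_
  refine map_max_eq _ ?_ ψ _ (ker_evalAt_isMaximal S 0 h0) (fun i => CoordRing.mk S (X i.1)) ?_ ?_
  · rw [Ideal.span_le, Set.singleton_subset_iff]
    exact hfm
  · intro i
    rw [RingHom.mem_ker, evalAt_mk, aeval_X]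
    rfl
  · intro i
    rw [hψ, proj, aeval_X, dif_neg i.2]

/-- Lower bound for the order along a curve `t ↦ t c`. -/
theorem notMem_pow_of_curve {τ : Type*} (f : MvPolynomial τ ℂ) (c : τ → ℂ) (e : ℕ) (a : ℂ)
    (ha : a ≠ 0)
    (h : aeval (fun i => Polynomial.C (c i) * Polynomial.X) f = Polynomial.C a * Polynomial.X ^ e) :
    f ∉ idealOfVars τ ℂ ^ (e + 1) := by
  intro hf
  have h1 : (idealOfVars τ ℂ ^ (e + 1)).map
      (aeval (fun i => Polynomial.C (c i) * Polynomial.X) :
        MvPolynomial τ ℂ →ₐ[ℂ] Polynomial ℂ) ≤ Ideal.span {Polynomial.X ^ (e + 1)} := by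
    rw [Ideal.map_pow, ← Ideal.span_singleton_pow]
    apply Ideal.pow_right_mono
    rw [Ideal.map_le_iff_le_comap, idealOfVars, Ideal.span_le]
    rintro _ ⟨i, rfl⟩
    rw [SetLike.mem_coe, Ideal.mem_comap, aeval_X]
    exact Ideal.mul_mem_left _ _ (Ideal.mem_span_singleton_self _)
  have h2 := h1 (Ideal.mem_map_of_mem _ hf)
  rw [h, Ideal.mem_span_singleton, Polynomial.X_pow_dvd_iff] at h2
  have := h2 e (Nat.lt_succ_self e)
  rw [Polynomial.coeff_C_mul_X_pow, if_pos rfl] at this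
  exact ha this

end Pool.Agent.Hhelper10.Schub
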