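import Pool.Agent.Hhelper10.Schub.Perm6

/-!
# Orders of the local equations
-/

namespace Pool.Agent.Hhelper10.Schub

open Matrix MvPolynomial

theorem permMat_mul_apply {n : ℕ} {R : Type*} [CommRing R] (u : Equiv.Perm (Fin n))
    (A : Matrix (Fin n) (Fin n) R) (i j : Fin n) : (permMat R u * A) i j = A (u.symm i) j := by
  rw [Matrix.mul_apply, Finset.sum_eq_single (u.symm i)]
  · simp [permMat]
  · intro k _ hk
    simp only [permMat, Matrix.of_apply]
    rw [if_neg, zero_mul]
    intro h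
    apply hk
    rw [h, Equiv.symm_apply_apply]
  · simp

/-- The coordinates of the chart at `e_u` which vanish on the Schubert variety. -/
def killed {m : ℕ} (Z : Finset (Fin (m + 1) × Fin (m + 1))) (u : Equiv.Perm (Fin (m + 1))) :
    Finset (Lo (m + 1)) :=
  Finset.univ.filter fun s => (u s.1.1, s.1.2) ∈ Z

theorem cond_permMat {m : ℕ} {Z : Finset (Fin (m + 1) × Fin (m + 1))}
    {w u : Equiv.Perm (Fin (m + 1))} (hw : cellIdeal w = condIdeal Z)
    (hu : flagPt u ∈ schubert w) : Cond Z (permMat ℂ u) := by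
  have h : ∀ F ∈ condIdeal Z, aeval (entries (permMat ℂ u)) F = 0 := by
    intro F hF
    rw [← hw] at hF
    exact aeval_eq_zero_of_mem_schubert hF (g := permGL u) hu
  have h2 : entries (permMat ℂ u) ∈ zeroLocus ℂ (condIdeal Z) := h
  exact mem_zeroLocus_condIdeal.1 h2

theorem vanishingIdeal_chartSet_eq {m : ℕ} {Z : Finset (Fin (m + 1) × Fin (m + 1))}
    {w u : Equiv.Perm (Fin (m + 1))} (hw : cellIdeal w = condIdeal Z)
    (hu : Cond Z (permMat ℂ u)) :
    vanishingIdeal ℂ (chartSet w u) =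
      varIdeal (killed Z u) ⊔ Ideal.span {restr u (adjEntry m)} := by
  rw [vanishingIdeal_chartSet, hw, condIdeal, Ideal.map_sup, Ideal.map_span,
    Set.image_singleton]
  congr 1
  rw [zeroIdeal, Ideal.map_span]
  have hX : ∀ i j, restr u (X (i, j)) = lowerUni X (u.symm i) j := by
    intro i j
    rw [restr, aeval_X]
    exact permMat_mul_apply u _ i j
  apply le_antisymm
  · rw [Ideal.span_le]
    rintro _ ⟨_, ⟨⟨i, j⟩, hp, rfl⟩, rfl⟩
    have hp' : (i, j) ∈ Z := hp
    change restr u (X (i, j)) ∈ varIdeal (killed Z u)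
    rw [hX]
    rcases lt_trichotomy j (u.symm i) with h | h | h
    · rw [lowerUni_lt h]
      apply Ideal.subset_span
      refine ⟨⟨(u.symm i, j), h⟩, ?_, rfl⟩
      simp only [killed, Finset.coe_filter, Finset.mem_univ, true_and, Set.mem_ofPred_eq]
      rw [Equiv.apply_symm_apply]
      exact hp'
    · exfalso
      have h1 := hu.1 (i, j) hp'
      simp only [permMat, Matrix.of_apply] at h1
      rw [if_pos] at h1
      · exact one_ne_zero h1
      · rw [h, Equiv.apply_symm_apply]
    · rw [lowerUni_gt _ h]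
      exact zero_mem _
  · rw [varIdeal, Ideal.span_le]
    rintro _ ⟨s, hs, rfl⟩
    have hs' : (u s.1.1, s.1.2) ∈ Z := by
      have : s ∈ killed Z u := hs
      simpa [killed] using this
    apply Ideal.subset_span
    refine ⟨X (u s.1.1, s.1.2), ⟨_, hs', rfl⟩, ?_⟩
    rw [hX, Equiv.symm_apply_apply, lowerUni_lt s.2]

/-- The local equation under a homomorphism. -/
theorem map_restr_adjEntry {m : ℕ} {S : Type*} [CommRing S] [Algebra ℂ S]
    (u : Equiv.Perm (Fin (m + 1))) (f : MvPolynomial (Lo (m + 1)) ℂ →ₐ[ℂ] S) :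
    f (restr u (adjEntry m)) =
      (permMat S u).det * (lowerUni fun s => f (X s)).adjugate (Fin.last m) (u.symm 0) := by
  let F : PMat (m + 1) →+* S := (f.comp (restr u) : PMat (m + 1) →ₐ[ℂ] S)
  have h1 := RingHom.map_adjugate F (genMat (m + 1))
  have h2 := congrFun (congrFun h1 (Fin.last m)) 0
  rw [RingHom.mapMatrix_apply, Matrix.map_apply, RingHom.mapMatrix_apply] at h2
  have h3 : (genMat (m + 1)).map F = permMat S u * lowerUni (fun s => f (X s)) := by
    have h4 : (genMat (m + 1)).map F =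
        ((genMat (m + 1)).map (restr u)).map (f : MvPolynomial (Lo (m + 1)) ℂ →+* S) := by
      rw [Matrix.map_map]
      rfl
    rw [h4, genMat_restr, Matrix.map_mul, permMat_map, lowerUni_map]
    rfl
  rw [h3, Matrix.adjugate_mul_distrib, permMat_adjugate, Matrix.mul_smul, Matrix.smul_apply,
    smul_eq_mul, Matrix.mul_apply, Finset.sum_eq_single (u.symm 0)] at h2
  · refine h2.trans ?_
    congr 1
    have : permMat S u⁻¹ (u.symm 0) 0 = 1 := by
      simp only [permMat, Matrix.of_apply]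
      rw [if_pos]
      rfl
    rw [this, mul_one]
  · intro k _ hk
    have : permMat S u⁻¹ k 0 = 0 := by
      simp only [permMat, Matrix.of_apply]
      rw [if_neg]
      exact hk
    rw [this, mul_zero]
  · simp

theorem adjugate_eq_of_mul_eq_one {n : ℕ} {S : Type*} [CommRing S] (z : Lo n → S)
    (N : Matrix (Fin n) (Fin n) S) (h : lowerUni z * N = 1) : (lowerUni z).adjugate = N := by
  calc (lowerUni z).adjugate = (lowerUni z).adjugate * (lowerUni z * N) := by
        rw [h, Matrix.mul_one]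
    _ = N := by
        rw [← Matrix.mul_assoc, Matrix.adjugate_mul, det_lowerUni, one_smul, Matrix.one_mul]

theorem lowerUni_eq_one_add {n : ℕ} {S : Type*} [CommRing S] (A : Matrix (Fin n) (Fin n) S)
    (hA : ∀ i j, i ≤ j → A i j = 0) : lowerUni (fun s : Lo n => A s.1.1 s.1.2) = 1 + A := by
  ext i j
  rw [Matrix.add_apply]
  rcases lt_trichotomy j i with h | h | h
  · rw [lowerUni_lt h, Matrix.one_apply_ne (ne_of_gt h), zero_add]
  · subst h
    rw [lowerUni_self, Matrix.one_apply_eq, hA _ _ le_rfl, add_zero]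
  · rw [lowerUni_gt _ h, Matrix.one_apply_ne (ne_of_lt h), hA _ _ h.le, add_zero]

/-- The inverse of `1 + A` when `A ^ 4 = 0`. -/
theorem adjugate_one_add {n : ℕ} {S : Type*} [CommRing S] (A : Matrix (Fin n) (Fin n) S)
    (hA : ∀ i j, i ≤ j → A i j = 0) (hA4 : A * A * (A * A) = 0) :
    (lowerUni (fun s : Lo n => A s.1.1 s.1.2)).adjugate = 1 - A + A * A - A * A * A := by
  apply adjugate_eq_of_mul_eq_one
  rw [lowerUni_eq_one_add A hA]
  have : (1 + A) * (1 - A + A * A - A * A * A) = 1 - A * A * (A * A) := by noncomm_ring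
  rw [this, hA4, sub_zero]

/-- The matrix `A X ^ p` over `ℂ[X]`. -/
noncomputable def mapX {n : ℕ} (A : Matrix (Fin n) (Fin n) ℂ) (p : ℕ) :
    Matrix (Fin n) (Fin n) (Polynomial ℂ) :=
  Matrix.of fun i j => Polynomial.C (A i j) * Polynomial.X ^ p

theorem mapX_mul {n : ℕ} (A B : Matrix (Fin n) (Fin n) ℂ) (p q : ℕ) :
    mapX A p * mapX B q = mapX (A * B) (p + q) := by
  ext1 i j
  simp only [mapX, Matrix.mul_apply, Matrix.of_apply, map_sum, map_mul, Finset.sum_mul, pow_add]
  apply Finset.sum_congr rfl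
  intro k _
  ring

theorem notMem_of_matrix {m : ℕ} {Z : Finset (Fin (m + 1) × Fin (m + 1))}
    {u : Equiv.Perm (Fin (m + 1))} (A : Matrix (Fin (m + 1)) (Fin (m + 1)) ℂ)
    (hA : ∀ i j, i ≤ j → A i j = 0) (hAZ : ∀ s ∈ killed Z u, A s.1.1 s.1.2 = 0)
    (hA4 : A * A * (A * A) = 0) (hu : Fin.last m ≠ u.symm 0) (e : ℕ) (a : ℂ) (ha : a ≠ 0)
    (h : - (Polynomial.C (A (Fin.last m) (u.symm 0)) * Polynomial.X) +
      Polynomial.C ((A * A) (Fin.last m) (u.symm 0)) * Polynomial.X ^ 2 -
      Polynomial.C ((A * A * A) (Fin.last m) (u.symm 0)) * Polynomial.X ^ 3 =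
        Polynomial.C a * Polynomial.X ^ e) :
    proj (killed Z u) (restr u (adjEntry m)) ∉
      idealOfVars {s : Lo (m + 1) // s ∉ killed Z u} ℂ ^ (e + 1) := by
  have hdet : (permMat ℂ u).det ≠ 0 := (inCell_permMat (K := ℂ) u).det_ne_zero
  apply notMem_pow_of_curve _ (fun s => A s.1.1.1 s.1.1.2) e ((permMat ℂ u).det * a)
    (mul_ne_zero hdet ha)
  rw [← AlgHom.comp_apply, map_restr_adjEntry]
  have hf : (fun s : Lo (m + 1) => ((aeval fun i : {s : Lo (m + 1) // s ∉ killed Z u} =>
      Polynomial.C (A i.1.1.1 i.1.1.2) * Polynomial.X).comp (proj (killed Z u))) (X s)) =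
      fun s => mapX A 1 s.1.1 s.1.2 := by
    funext s
    rw [AlgHom.comp_apply, proj, aeval_X]
    split_ifs with hs
    · rw [map_zero]
      simp only [mapX, Matrix.of_apply]
      rw [hAZ s hs]
      simp
    · rw [aeval_X]
      simp [mapX]
  rw [hf, adjugate_one_add (mapX A 1)]
  · rw [mapX_mul, mapX_mul]
    have h1 : (permMat (Polynomial ℂ) u).det = Polynomial.C (permMat ℂ u).det := by
      rw [RingHom.map_det, RingHom.mapMatrix_apply, permMat_map]
    rw [h1, map_mul, mul_assoc (Polynomial.C (permMat ℂ u).det), ← h]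
    congr 1
    simp only [Matrix.sub_apply, Matrix.add_apply, mapX, Matrix.of_apply,
      Matrix.one_apply_ne hu]
    ring
  · intro i j hij
    simp only [mapX, Matrix.of_apply]
    rw [hA i j hij]
    simp
  · rw [mapX_mul, mapX_mul, hA4]
    ext1 i j
    simp [mapX]

theorem mem_idealOfVars_of_cond {m : ℕ} {Z : Finset (Fin (m + 1) × Fin (m + 1))}
    {u : Equiv.Perm (Fin (m + 1))} (hu : Cond Z (permMat ℂ u)) :
    proj (killed Z u) (restr u (adjEntry m)) ∈
      idealOfVars {s : Lo (m + 1) // s ∉ killed Z u} ℂ := by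
  rw [idealOfVars_eq_ker, RingHom.mem_ker]
  have h1 : ∀ g : MvPolynomial (Lo (m + 1)) ℂ,
      constantCoeff (proj (killed Z u) g) = aeval (0 : Lo (m + 1) → ℂ) g := by
    intro g
    have h2 : (aeval (0 : {s : Lo (m + 1) // s ∉ killed Z u} → ℂ)).comp (proj (killed Z u)) =
        (aeval (0 : Lo (m + 1) → ℂ) : MvPolynomial (Lo (m + 1)) ℂ →ₐ[ℂ] ℂ) := by
      ext1 s
      rw [AlgHom.comp_apply, proj, aeval_X, aeval_X]
      split_ifs
      · rw [map_zero]
        rfl
      · rw [aeval_X]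
        rfl
    rw [← h2, AlgHom.comp_apply, aeval_zero]
    rfl
  rw [h1, map_restr_adjEntry]
  have h3 : (lowerUni fun s : Lo (m + 1) => (aeval (0 : Lo (m + 1) → ℂ)) (X s : MvPolynomial _ ℂ))
      = (1 : Matrix (Fin (m + 1)) (Fin (m + 1)) ℂ) := by
    have := lowerUni_eq_one_add (0 : Matrix (Fin (m + 1)) (Fin (m + 1)) ℂ) (by simp)
    rw [add_zero] at this
    rw [← this]
    congr 1
    funext s
    simp
  rw [h3, Matrix.adjugate_one]
  have h4 : Fin.last m ≠ u.symm 0 := by
    intro h5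
    apply (inCell_permMat (K := ℂ) u).adjugate_last.1 hu.2
    rw [h5, Equiv.apply_symm_apply]
  rw [Matrix.one_apply_ne h4, mul_zero]

end Pool.Agent.Hhelper10.Schub
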