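import Pool.Agent.Hhelper10.Schub.Perm7

/-!
# The ideal of the cell of `354612`
-/

namespace Pool.Agent.Hhelper10.Schub

open Matrix MvPolynomial

/-- Positions of the zero entries. -/
def Z6 : Finset (Fin 6 × Fin 6) := {(3, 0), (4, 0), (5, 0), (5, 1), (5, 2)}

theorem det_cyc5 {R : Type*} [CommRing R] (x y z : R) :
    (!![x, 0, 0, 0, y;
        y, x, 0, 0, 0;
        0, y, x, 0, 0;
        0, 0, y, x, 0;
        0, 0, 0, z, x] : Matrix (Fin 5) (Fin 5) R).det = x ^ 5 + y ^ 4 * z := by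
  simp [Matrix.det_succ_row_zero, Fin.sum_univ_succ, Fin.succAbove]
  ring

/-- The specialised matrix. -/
noncomputable def spec6 : Matrix (Fin 6) (Fin 6) (MvPolynomial (Fin 3) ℂ) :=
  !![0, 0, 0, 0, 0, 0;
     X 0, 0, 0, 0, X 1, 0;
     X 1, X 0, 0, 0, 0, 0;
     0, X 1, X 0, 0, 0, 0;
     0, 0, X 1, X 0, 0, 0;
     0, 0, 0, X 2, X 0, 0]

theorem spec6_submatrix : spec6.submatrix (Fin.succAbove 0) (Fin.succAbove (Fin.last 5)) =
    !![X 0, 0, 0, 0, X 1;
       X 1, X 0, 0, 0, 0;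
       0, X 1, X 0, 0, 0;
       0, 0, X 1, X 0, 0;
       0, 0, 0, X 2, X 0] := by
  ext1 i j
  fin_cases i <;> fin_cases j <;> rfl

theorem condIdeal_Z6_isPrime : (condIdeal Z6 : Ideal (PMat 6)).IsPrime := by
  refine condIdeal_isPrime (m := 5) Z6 spec6 ?_ ?_ (-1) (-1) (by simp) (by simp) ?_
  · intro p hp
    fin_cases hp <;> rfl
  · intro i j
    fin_cases i <;> fin_cases j <;> simp [spec6]
  · rw [Matrix.adjugate_fin_succ_eq_det_submatrix, spec6_submatrix, det_cyc5]
    simp only [Fin.val_zero, Fin.val_last, C_neg, C_1]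
    ring

theorem p6_corner : ∀ p ∈ Z6, ∀ l : Fin 6, l ≤ p.2 → ¬ p.1 ≤ perm354612 l := by decide

theorem cond_of_inCell_p6 (M : Matrix (Fin 6) (Fin 6) ℂ) (h : InCell perm354612 M) : Cond Z6 M := by
  refine ⟨fun p hp => ?_, ?_⟩
  · by_contra hne
    obtain ⟨l, hl, hl'⟩ := h.exists_of_ne hne
    exact p6_corner p hp l hl hl'
  · exact h.adjugate_last.2 (by decide)

/-- The product of the polynomials which must not vanish at a generic point. -/
noncomputable def gen6 : PMat 6 :=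
  X (2, 0) * X (4, 1) * X (5, 3) * (X (3, 1) * X (4, 2) - X (3, 2) * X (4, 1)) * (genMat 6).det

theorem aeval_gen6 (M : Matrix (Fin 6) (Fin 6) ℂ) : aeval (entries M) gen6 =
    M 2 0 * M 4 1 * M 5 3 * (M 3 1 * M 4 2 - M 3 2 * M 4 1) * M.det := by
  rw [gen6]
  simp only [map_mul, map_sub, aeval_X, aeval_det]
  rfl

theorem inCell_of_gen6 (M : Matrix (Fin 6) (Fin 6) ℂ) (hC : Cond Z6 M)
    (hg : aeval (entries M) gen6 ≠ 0) : InCell perm354612 M := by
  rw [aeval_gen6] at hg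
  simp only [mul_ne_zero_iff] at hg
  obtain ⟨⟨⟨⟨h1, h2⟩, h3⟩, h4⟩, h7⟩ := hg
  obtain ⟨v, hv⟩ := exists_bruhat M h7
  have z30 : M 3 0 = 0 := hC.1 (3, 0) (by decide)
  have z40 : M 4 0 = 0 := hC.1 (4, 0) (by decide)
  have z50 : M 5 0 = 0 := hC.1 (5, 0) (by decide)
  have z51 : M 5 1 = 0 := hC.1 (5, 1) (by decide)
  have z52 : M 5 2 = 0 := hC.1 (5, 2) (by decide)
  have hne : ∀ i j : Fin 6, i ≠ j → v i ≠ v j := fun i j hij h => hij (v.injective h)
  -- v 0 = 2
  have e0 : v 0 = 2 := by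
    obtain ⟨l, hl, hl'⟩ := hv.exists_of_ne h1
    have hl0 : l = 0 := le_antisymm hl (Fin.zero_le _)
    subst hl0
    have hf := hv.first_col
    generalize v 0 = a at *
    fin_cases a
    · exact absurd hl' (by decide)
    · exact absurd hl' (by decide)
    · rfl
    · exact absurd z30 hf
    · exact absurd z40 hf
    · exact absurd z50 hf
  have hl6 : ∀ j : Fin 6, M 5 j = 0 → v j ≠ 5 := by
    intro j hj hvj
    have := hv.last_row
    rw [show (Fin.last 5) = (5 : Fin 6) from rfl, ← hvj, Equiv.symm_apply_apply, hvj] at this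
    exact this hj
  have n0 := hl6 0 z50
  have n1 := hl6 1 z51
  have n2 := hl6 2 z52
  -- v 1 = 4
  have e1 : v 1 = 4 := by
    obtain ⟨l, hl, hl'⟩ := hv.exists_of_ne h2
    have hl1 : l = 0 ∨ l = 1 := by
      clear hl'
      revert l
      decide
    rcases hl1 with rfl | rfl
    · rw [e0] at hl'
      exact absurd hl' (by decide)
    · exact (by decide : ∀ a : Fin 6, a ≠ 5 → 4 ≤ a → a = 4) _ n1 hl'
  -- v 3 = 5
  have e3 : v 3 = 5 := by
    obtain ⟨l, hl, hl'⟩ := hv.exists_of_ne h3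
    have hl1 : l = 0 ∨ l = 1 ∨ l = 2 ∨ l = 3 := by
      clear hl'
      revert l
      decide
    have hl2 : v l = 5 := le_antisymm (Fin.le_last _) hl'
    rcases hl1 with rfl | rfl | rfl | rfl
    · exact absurd hl2 n0
    · exact absurd hl2 n1
    · exact absurd hl2 n2
    · exact hl2
  have e5' : v 5 ≠ 0 := hv.adjugate_last.1 hC.2
  -- v 2 = 3
  have e2 : v 2 = 3 := by
    have h21 := hne 2 1 (by decide)
    have h4' : 3 ≤ v 2 := by
      by_contra hcon
      apply h4
      apply hv.minor_eq_zero 1 (by decide) (by decide)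
      intro l hl hl'
      have hl1 : l = 0 ∨ l = 1 ∨ l = 2 := by
        clear hl'
        revert l
        decide
      rcases hl1 with rfl | rfl | rfl
      · rw [e0] at hl'
        exact absurd hl' (by decide)
      · rfl
      · exact absurd hl' hcon
    rw [e1] at h21
    exact (by decide : ∀ a : Fin 6, a ≠ 4 → a ≠ 5 → 3 ≤ a → a = 3) _ h21 n2 h4'
  have e5 : v 5 = 1 := by
    have a0 := hne 5 0 (by decide)
    have a1 := hne 5 1 (by decide)
    have a2 := hne 5 2 (by decide)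
    have a3 := hne 5 3 (by decide)
    rw [e0] at a0
    rw [e1] at a1
    rw [e2] at a2
    rw [e3] at a3
    exact (by decide : ∀ a : Fin 6, (a ≠ 2 ∧ a ≠ 4 ∧ a ≠ 3 ∧ a ≠ 5 ∧ a ≠ 0) → a = 1)
      _ ⟨a0, a1, a2, a3, e5'⟩
  have e4 : v 4 = 0 := by
    have a0 := hne 4 0 (by decide)
    have a1 := hne 4 1 (by decide)
    have a2 := hne 4 2 (by decide)
    have a3 := hne 4 3 (by decide)
    have a5 := hne 4 5 (by decide)
    rw [e0] at a0
    rw [e1] at a1
    rw [e2] at a2
    rw [e3] at a3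
    rw [e5] at a5
    exact (by decide : ∀ a : Fin 6, (a ≠ 2 ∧ a ≠ 4 ∧ a ≠ 3 ∧ a ≠ 5 ∧ a ≠ 1) → a = 0)
      _ ⟨a0, a1, a2, a3, a5⟩
  have hvw : v = perm354612 := by
    ext i
    fin_cases i
    · exact congrArg Fin.val e0
    · exact congrArg Fin.val e1
    · exact congrArg Fin.val e2
    · exact congrArg Fin.val e3
    · exact congrArg Fin.val e4
    · exact congrArg Fin.val e5
  rw [← hvw]
  exact hv

theorem exists_gen6 : ∃ M : Matrix (Fin 6) (Fin 6) ℂ, Cond Z6 M ∧ aeval (entries M) gen6 ≠ 0 := by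
  refine ⟨permMat ℂ perm354612, cond_of_inCell_p6 _ (inCell_permMat perm354612), ?_⟩
  have hdet := (inCell_permMat (K := ℂ) perm354612).det_ne_zero
  rw [aeval_gen6]
  have h1 : permMat ℂ perm354612 2 0 = 1 := by simp [permMat, perm354612]
  have h2 : permMat ℂ perm354612 4 1 = 1 := by simp [permMat, perm354612]
  have h3 : permMat ℂ perm354612 5 3 = 1 := by simp [permMat, perm354612]
  have h4 : permMat ℂ perm354612 3 1 = 0 := by simp [permMat, perm354612]
  have h5 : permMat ℂ perm354612 3 2 = 1 := by simp [permMat, perm354612]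
  rw [h1, h2, h3, h4, h5]
  simp [hdet]

theorem cellIdeal_p6 : cellIdeal perm354612 = condIdeal Z6 :=
  cellIdeal_eq_condIdeal condIdeal_Z6_isPrime cond_of_inCell_p6 gen6 inCell_of_gen6 exists_gen6

end Pool.Agent.Hhelper10.Schub
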