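import Pool.Agent.Hhelper10.Schub.Local

/-!
# The ideal of the cell of `4657312`
-/

namespace Pool.Agent.Hhelper10.Schub

open Matrix MvPolynomial

theorem map_genMat_aeval {n : ℕ} (M : Matrix (Fin n) (Fin n) ℂ) :
    (genMat n).map ((aeval (entries M) : PMat n →ₐ[ℂ] ℂ) : PMat n →+* ℂ) = M :=
  genMat_map (entries M)

theorem aeval_adjugate {n : ℕ} (M : Matrix (Fin n) (Fin n) ℂ) (i j : Fin n) :
    aeval (entries M) ((genMat n).adjugate i j) = M.adjugate i j := by
  have h1 := RingHom.map_adjugate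
    ((aeval (entries M) : PMat n →ₐ[ℂ] ℂ) : PMat n →+* ℂ) (genMat n)
  have h2 := congrFun (congrFun h1 i) j
  rw [RingHom.mapMatrix_apply, Matrix.map_apply, RingHom.mapMatrix_apply,
    map_genMat_aeval] at h2
  exact h2

theorem aeval_det {n : ℕ} (M : Matrix (Fin n) (Fin n) ℂ) :
    aeval (entries M) ((genMat n).det) = M.det := by
  have h1 := RingHom.map_det
    ((aeval (entries M) : PMat n →ₐ[ℂ] ℂ) : PMat n →+* ℂ) (genMat n)
  rw [RingHom.mapMatrix_apply, map_genMat_aeval] at h1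
  exact h1

theorem permMat_adjugate {n : ℕ} {R : Type*} [CommRing R] (w : Equiv.Perm (Fin n)) :
    (permMat R w).adjugate = (permMat R w).det • permMat R w⁻¹ := by
  calc (permMat R w).adjugate = (permMat R w).adjugate * (permMat R w * permMat R w⁻¹) := by
        rw [permMat_mul_permMat, mul_inv_cancel, permMat_one, Matrix.mul_one]
    _ = (permMat R w).det • permMat R w⁻¹ := by
        rw [← Matrix.mul_assoc, Matrix.adjugate_mul, Matrix.smul_mul, Matrix.one_mul]

theorem inCell_permMat {n : ℕ} {K : Type*} [Field K] (w : Equiv.Perm (Fin n)) :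
    InCell w (permMat K w) :=
  ⟨1, 1, Up.one, Up.one, by rw [Matrix.one_mul, Matrix.mul_one]⟩

/-- Positions of the zero entries. -/
def Z7 : Finset (Fin 7 × Fin 7) := {(4, 0), (5, 0), (6, 0), (6, 1), (6, 2)}

theorem det_cyc6 {R : Type*} [CommRing R] (x y z : R) :
    (!![x, 0, 0, 0, y, 0;
       0, x, y, 0, 0, 0;
       y, 0, x, 0, 0, 0;
       0, y, 0, x, 0, 0;
       0, 0, 0, 0, x, y;
       0, 0, 0, z, 0, x] : Matrix (Fin 6) (Fin 6) R).det = x ^ 6 - y ^ 5 * z := by
  simp [Matrix.det_succ_row_zero, Fin.sum_univ_succ, Fin.succAbove]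
  ring

/-- The specialised matrix. -/
noncomputable def spec7 : Matrix (Fin 7) (Fin 7) (MvPolynomial (Fin 3) ℂ) :=
  !![0, 0, 0, 0, 0, 0, 0;
     X 0, 0, 0, 0, X 1, 0, 0;
     0, X 0, X 1, 0, 0, 0, 0;
     X 1, 0, X 0, 0, 0, 0, 0;
     0, X 1, 0, X 0, 0, 0, 0;
     0, 0, 0, 0, X 0, X 1, 0;
     0, 0, 0, X 2, 0, X 0, 0]

theorem spec7_submatrix : spec7.submatrix (Fin.succAbove 0) (Fin.succAbove (Fin.last 6)) =
    !![X 0, 0, 0, 0, X 1, 0;
       0, X 0, X 1, 0, 0, 0;
       X 1, 0, X 0, 0, 0, 0;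
       0, X 1, 0, X 0, 0, 0;
       0, 0, 0, 0, X 0, X 1;
       0, 0, 0, X 2, 0, X 0] := by
  ext1 i j
  fin_cases i <;> fin_cases j <;> rfl

theorem condIdeal_Z7_isPrime : (condIdeal Z7 : Ideal (PMat 7)).IsPrime := by
  refine condIdeal_isPrime (m := 6) Z7 spec7 ?_ ?_ 1 (-1) one_ne_zero (by simp) ?_
  · intro p hp
    fin_cases hp <;> rfl
  · intro i j
    fin_cases i <;> fin_cases j <;> simp [spec7]
  · rw [Matrix.adjugate_fin_succ_eq_det_submatrix, spec7_submatrix, det_cyc6]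
    simp
    ring

theorem w7_corner : ∀ p ∈ Z7, ∀ l : Fin 7, l ≤ p.2 → ¬ p.1 ≤ perm4657312 l := by decide

theorem cond_of_inCell_w7 (M : Matrix (Fin 7) (Fin 7) ℂ) (h : InCell perm4657312 M) : Cond Z7 M := by
  refine ⟨fun p hp => ?_, ?_⟩
  · by_contra hne
    obtain ⟨l, hl, hl'⟩ := h.exists_of_ne hne
    exact w7_corner p hp l hl hl'
  · exact h.adjugate_last.2 (by decide)

/-- The product of the polynomials which must not vanish at a generic point. -/
noncomputable def gen7 : PMat 7 :=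
  X (3, 0) * X (5, 1) * X (6, 3) * (X (4, 1) * X (5, 2) - X (4, 2) * X (5, 1)) *
    (genMat 7).adjugate 6 1 * (genMat 7).adjugate 5 0 * (genMat 7).det

theorem aeval_gen7 (M : Matrix (Fin 7) (Fin 7) ℂ) : aeval (entries M) gen7 =
    M 3 0 * M 5 1 * M 6 3 * (M 4 1 * M 5 2 - M 4 2 * M 5 1) * M.adjugate 6 1 * M.adjugate 5 0 *
      M.det := by
  rw [gen7]
  simp only [map_mul, map_sub, aeval_X, aeval_adjugate, aeval_det]
  rfl

theorem inCell_of_gen7 (M : Matrix (Fin 7) (Fin 7) ℂ) (hC : Cond Z7 M)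
    (hg : aeval (entries M) gen7 ≠ 0) : InCell perm4657312 M := by
  rw [aeval_gen7] at hg
  simp only [mul_ne_zero_iff] at hg
  obtain ⟨⟨⟨⟨⟨⟨h1, h2⟩, h3⟩, h4⟩, h5⟩, h6⟩, h7⟩ := hg
  obtain ⟨v, hv⟩ := exists_bruhat M h7
  have z40 : M 4 0 = 0 := hC.1 (4, 0) (by decide)
  have z50 : M 5 0 = 0 := hC.1 (5, 0) (by decide)
  have z60 : M 6 0 = 0 := hC.1 (6, 0) (by decide)
  have z61 : M 6 1 = 0 := hC.1 (6, 1) (by decide)
  have z62 : M 6 2 = 0 := hC.1 (6, 2) (by decide)
  have hne : ∀ i j : Fin 7, i ≠ j → v i ≠ v j := fun i j hij h => hij (v.injective h)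
  -- v 0 = 3
  have e0 : v 0 = 3 := by
    obtain ⟨l, hl, hl'⟩ := hv.exists_of_ne h1
    have hl0 : l = 0 := le_antisymm hl (Fin.zero_le _)
    subst hl0
    have hf := hv.first_col
    generalize v 0 = a at *
    fin_cases a
    · exact absurd hl' (by decide)
    · exact absurd hl' (by decide)
    · exact absurd hl' (by decide)
    · rfl
    · exact absurd z40 hf
    · exact absurd z50 hf
    · exact absurd z60 hf
  have hl6 : ∀ j : Fin 7, M 6 j = 0 → v j ≠ 6 := by
    intro j hj hvj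
    have := hv.last_row
    rw [show (Fin.last 6) = (6 : Fin 7) from rfl, ← hvj, Equiv.symm_apply_apply, hvj] at this
    exact this hj
  have n0 := hl6 0 z60
  have n1 := hl6 1 z61
  have n2 := hl6 2 z62
  -- v 1 = 5
  have e1 : v 1 = 5 := by
    obtain ⟨l, hl, hl'⟩ := hv.exists_of_ne h2
    have hl1 : l = 0 ∨ l = 1 := by
      clear hl'
      revert l
      decide
    rcases hl1 with rfl | rfl
    · rw [e0] at hl'
      exact absurd hl' (by decide)
    · clear hl
      generalize v 1 = a at *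
      revert a
      decide
  -- v 3 = 6
  have e3 : v 3 = 6 := by
    obtain ⟨l, hl, hl'⟩ := hv.exists_of_ne h3
    have hl1 : l = 0 ∨ l = 1 ∨ l = 2 ∨ l = 3 := by
      clear hl'
      revert l
      decide
    have hl2 : v l = 6 := le_antisymm (Fin.le_last _) hl'
    rcases hl1 with rfl | rfl | rfl | rfl
    · exact absurd hl2 n0
    · exact absurd hl2 n1
    · exact absurd hl2 n2
    · exact hl2
  -- v 6 = 1
  have e6' : v 6 ≠ 0 := hv.adjugate_last.1 hC.2
  have e6 : v 6 = 1 := by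
    obtain ⟨l, hl, hl'⟩ := hv.exists_of_adjugate_ne h5
    have hl2 : v.symm l = 6 := le_antisymm (Fin.le_last _) hl'
    have hl3 : v 6 = l := by rw [← hl2, Equiv.apply_symm_apply]
    rw [← hl3] at hl
    exact (by decide : ∀ a : Fin 7, a ≠ 0 → a ≤ 1 → a = 1) _ e6' hl
  -- v 5 = 0
  have e5 : v 5 = 0 := by
    obtain ⟨l, hl, hl'⟩ := hv.exists_of_adjugate_ne h6
    have hl0 : l = 0 := le_antisymm hl (Fin.zero_le _)
    subst hl0
    have hl2 : v (v.symm 0) = 0 := Equiv.apply_symm_apply _ _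
    have hl3 : v.symm 0 = 5 ∨ v.symm 0 = 6 := by
      generalize v.symm 0 = a at *
      clear hl2
      revert a
      decide
    rcases hl3 with h | h
    · rw [h] at hl2
      exact hl2
    · rw [h] at hl2
      exact absurd hl2 e6'
  -- v 2 = 4
  have e2 : v 2 = 4 := by
    have h21 := hne 2 1 (by decide)
    have h4' : 4 ≤ v 2 := by
      by_contra hcon
      apply h4
      apply hv.minor_eq_zero 1 (by decide) (by decide)
      intro l hl hl'
      have hl1 : l = 0 ∨ l = 1 ∨ l = 2 := by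
        clear hl'
        revert l
        decide
      rcases hl1 with rfl | rfl | rfl
      · rw [e0] at hl'
        exact absurd hl' (by decide)
      · rfl
      · exact absurd hl' hcon
    rw [e1] at h21
    exact (by decide : ∀ a : Fin 7, a ≠ 5 → a ≠ 6 → 4 ≤ a → a = 4) _ h21 n2 h4'
  have e4 : v 4 = 2 := by
    have a0 := hne 4 0 (by decide)
    have a1 := hne 4 1 (by decide)
    have a2 := hne 4 2 (by decide)
    have a3 := hne 4 3 (by decide)
    have a5 := hne 4 5 (by decide)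
    have a6 := hne 4 6 (by decide)
    rw [e0] at a0
    rw [e1] at a1
    rw [e2] at a2
    rw [e3] at a3
    rw [e5] at a5
    rw [e6] at a6
    exact (by decide : ∀ a : Fin 7, (a ≠ 3 ∧ a ≠ 5 ∧ a ≠ 4 ∧ a ≠ 6 ∧ a ≠ 0 ∧ a ≠ 1) → a = 2)
      _ ⟨a0, a1, a2, a3, a5, a6⟩
  have hvw : v = perm4657312 := by
    ext i
    fin_cases i
    · exact congrArg Fin.val e0
    · exact congrArg Fin.val e1
    · exact congrArg Fin.val e2
    · exact congrArg Fin.val e3
    · exact congrArg Fin.val e4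
    · exact congrArg Fin.val e5
    · exact congrArg Fin.val e6
  rw [← hvw]
  exact hv

theorem exists_gen7 : ∃ M : Matrix (Fin 7) (Fin 7) ℂ, Cond Z7 M ∧ aeval (entries M) gen7 ≠ 0 := by
  refine ⟨permMat ℂ perm4657312, cond_of_inCell_w7 _ (inCell_permMat perm4657312), ?_⟩
  have hdet := (inCell_permMat (K := ℂ) perm4657312).det_ne_zero
  rw [aeval_gen7, permMat_adjugate]
  have h1 : permMat ℂ perm4657312 3 0 = 1 := by simp [permMat, perm4657312]
  have h2 : permMat ℂ perm4657312 5 1 = 1 := by simp [permMat, perm4657312]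
  have h3 : permMat ℂ perm4657312 6 3 = 1 := by simp [permMat, perm4657312]
  have h4 : permMat ℂ perm4657312 4 1 = 0 := by simp [permMat, perm4657312]
  have h5 : permMat ℂ perm4657312 4 2 = 1 := by simp [permMat, perm4657312]
  have h6 : permMat ℂ perm4657312⁻¹ 6 1 = 1 := by
    simp only [permMat, Matrix.of_apply]
    rw [if_pos (by decide)]
  have h7 : permMat ℂ perm4657312⁻¹ 5 0 = 1 := by
    simp only [permMat, Matrix.of_apply]
    rw [if_pos (by decide)]
  rw [Matrix.smul_apply, Matrix.smul_apply, h1, h2, h3, h4, h5, h6, h7]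
  simp [hdet]

theorem cellIdeal_w7 : cellIdeal perm4657312 = condIdeal Z7 :=
  cellIdeal_eq_condIdeal condIdeal_Z7_isPrime cond_of_inCell_w7 gen7 inCell_of_gen7 exists_gen7

end Pool.Agent.Hhelper10.Schub
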